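import Pool.Agent.H88.TX.Def

/-! # [H88 TX CHX] `j = 2`: the middle range, one chart

Copy the proof of `Pool.Agent.H82.A3.ch1` (H82/A3/Ch.lean) with `j = 2`, `g = e`, `A = B^2` (so `B / A = 1 / B`, `Bas.gd`), `arrs` replaced by `h` with
`D = B^d`, `d = d(n)` such that `B² ≤ B^d` and `n² B ≤ B^d` (`n² ≤ 2^(2n)`; `d = 2n + 2`). `Fc g c = ad e c` by `rfl`, and
`ev n (Fc e c) x y = ev n e x y + ev 2 (co c) x y` (see `Pool.Agent.H88.TU` / `ev_ad`-like lemmas, or unfold; `co c` vanishes above degree `2 < n`).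
`Nz n e` from `Bas` (irreducible of degree `n ≥ 2`; `grep nz_of / nz_` in H88/TU, H12/TG, H88/A2/Gd.lean; the root of a degree-`n` irreducible polynomial is
not rational and `e 0 n ≠ 0` by `deg`). `U = (B H)^E`: `log U = E (log B + log H)`,
`log U / log (2H) ≤ E (2 B + 1)`, `log U / log (2 H²) ≤ E (2 B + 1)`, `√H (1 + log U) ≤ H (1 + E (B + 2))`-like, hence `Lm H U ≤ P(E) B H²`, and ch1 gives
`≤ C (Lm · (2H+1)^(6-3) + (1 + ...) (2H+1)^5) ≤ B^κ (2H+1)^5` (`min 2 (n-2) = 2`, `card (Ix 2) = 6`: `card_ix 2`). `κ₁` = exponent with `K + 3 ≤ B^κ₁`.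
Shortest way: prove the copy of ch1 in the form `∃ C K ≤ B^k, ...` (all `j`), then specialise. -/

namespace Pool.Agent.H88.TX

open Finset Polynomial Pool.Agent.H8.AA Pool.Agent.H88.A2 Pool.Agent.H88.TU Pool.Agent.H12.A3 Pool.Agent.H82.A3

/-- `H82.A3.ch1` with the constants of `arrs` as hypotheses -/
private theorem ch1x (n j : ℕ) (hn : 4 ≤ n) (hjn : j < n) (g : ℕ → ℕ → ℤ) (B : ℕ) (A : ℝ) (hB : 2 ≤ B)
    (hg : ∀ a b, |g a b| + 1 ≤ (B : ℤ)) (hz : Nz n g) (hgd : Gd n (B / A) g) (C K : ℝ) (hC : 1 ≤ C) (hK : 1 ≤ K)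
    (harr : ∀ (e : ℕ → ℕ → ℤ) (H : ℕ) (U : ℝ), 1 ≤ H → 1 ≤ U → Tp n B H e → Nz n e → Gd n (B / A) e →
      ∃ L : Finset (ℤ × ℤ), (L.card : ℝ) ≤ C * ((H : ℝ) ^ 2 * (1 + Real.log U / Real.log (2 * H)) + H * √H * (1 + Real.log U)) ∧
      ∀ e' : ℕ → ℕ → ℤ, (∀ j ≤ n, e' (n - j) j = e (n - j) j) → (∀ b < n, |(e' 0 b : ℝ)| ≤ B * H) → ∀ S : Finset (ℤ × ℤ),
      (∀ P ∈ S, P ∉ L ∧ Pt n e H ((n : ℝ) ^ 2 * B) K P.1 P.2 ∧ |(P.1 : ℝ)| ≤ U ∧ |ev n e' P.1 P.2| ≤ (H : ℤ)) →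
      (S.card : ℝ) ≤ C * (1 + Real.log U / Real.log (2 * (H : ℝ) ^ 2)))
    (H : ℕ) (U : ℝ) (hH : 1 ≤ H) (hU : 1 ≤ U) (T : Finset (Ix j → ℤ))
    (hT : ∀ c ∈ T, (∀ p, |c p| ≤ (H : ℤ)) ∧ ∃ x y : ℤ, |y| ≤ |x| ∧ (K + 3) * H ≤ |(x : ℝ)| ∧ |(x : ℝ)| ≤ U ∧ ev n (Fc g c) x y = 0) :
    (T.card : ℝ) ≤ C * (Lm H U *
        (2 * (H : ℝ) + 1) ^ (Fintype.card (Ix j) - (min j (n - 2) + 1)) +
      (1 + Real.log U / Real.log (2 * (H : ℝ) ^ 2)) * (2 * (H : ℝ) + 1) ^ (Fintype.card (Ix j) - 1)) := by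
  classical
  have hB' : (2 : ℝ) ≤ (B : ℝ) := by exact_mod_cast hB
  have hH' : (1 : ℝ) ≤ (H : ℝ) := by exact_mod_cast hH
  have hlU : 0 ≤ Real.log U := Real.log_nonneg hU
  have hlH : 0 < Real.log (2 * (H : ℝ) ^ 2) := by
    apply Real.log_pos
    have : 1 ≤ (H : ℝ) ^ 2 := one_le_pow₀ hH'
    linarith
  -- the light points
  have hL : ∀ e : ℕ → ℕ → ℤ, Tp n B H e ∧ Nz n e ∧ Gd n (B / A) e → ∃ L : Finset (ℤ × ℤ),
      (L.card : ℝ) ≤ C * Lm H U ∧
      ∀ e' : ℕ → ℕ → ℤ, (∀ j ≤ n, e' (n - j) j = e (n - j) j) → (∀ b < n, |(e' 0 b : ℝ)| ≤ B * H) →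
      ∀ S : Finset (ℤ × ℤ), (∀ P ∈ S, P ∉ L ∧ Pt n e H ((n : ℝ) ^ 2 * B) K P.1 P.2 ∧ |(P.1 : ℝ)| ≤ U ∧ |ev n e' P.1 P.2| ≤ (H : ℤ)) →
      (S.card : ℝ) ≤ C * (1 + Real.log U / Real.log (2 * (H : ℝ) ^ 2)) :=
    fun e he => harr e H U hH hU he.1 he.2.1 he.2.2
  choose! L hL1 hL2 using hL
  -- properties of top c
  have htop : ∀ c : Ix j → ℤ, (∀ p, |c p| ≤ (H : ℤ)) → Tp n B H (top n g c) ∧ Nz n (top n g c) ∧ Gd n (B / A) (top n g c) := by
    intro c hc
    refine ⟨⟨?_, ?_⟩, ?_, ?_⟩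
    · intro i hi
      rw [top_n hjn g c (by omega)]
      exact g_le hg _ _
    · intro i hi
      unfold top
      rw [if_pos (by omega)]
      exact Fc_le hB hH hg hc _ _
    · exact nz_congr (fun a b hab => (top_n hjn g c hab).symm) hz
    · exact gd_congr (fun a b hab => (top_n hjn g c hab).symm) hgd
  -- the zeros
  have hP : ∀ c : Ix j → ℤ, ∃ P : ℤ × ℤ, c ∈ T → |P.2| ≤ |P.1| ∧ (K + 3) * H ≤ |(P.1 : ℝ)| ∧ |(P.1 : ℝ)| ≤ U ∧
      ev n (Fc g c) P.1 P.2 = 0 := by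
    intro c
    by_cases hc : c ∈ T
    · obtain ⟨x, y, h⟩ := (hT c hc).2
      exact ⟨(x, y), fun _ => h⟩
    · exact ⟨0, fun h => absurd h hc⟩
  choose P hP using hP
  have hx2 : ∀ c ∈ T, 2 * (H : ℤ) < |(P c).1| := by
    intro c hc
    have h1 := (hP c hc).2.1
    have h2 : (2 * (H : ℝ)) < |((P c).1 : ℝ)| := by nlinarith
    exact_mod_cast h2
  have hKx : ∀ c ∈ T, K * H ≤ |((P c).1 : ℝ)| := by
    intro c hc
    have h1 := (hP c hc).2.1
    nlinarith
  obtain ⟨TL, hTL⟩ : ∃ TL, TL = T.filter (fun c => P c ∈ L (top n g c)) := ⟨_, rfl⟩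
  obtain ⟨TH, hTH⟩ : ∃ TH, TH = T.filter (fun c => ¬ P c ∈ L (top n g c)) := ⟨_, rfl⟩
  have hsum : T.card = TL.card + TH.card := by
    rw [hTL, hTH]
    exact (card_filter_add_card_filter_not _).symm
  -- light
  obtain ⟨M1, hM1⟩ : ∃ M1 : ℝ, M1 = C * Lm H U := ⟨_, rfl⟩
  have hM10 : 0 ≤ M1 := by rw [hM1]; exact mul_nonneg (by linarith) (Lm_nonneg hH hU)
  have hmin : min j (n - 2) ≤ j := min_le_left _ _
  have hTLc : TL.card ≤ ⌊M1⌋₊ * (2 * H + 1) ^ (Fintype.card (Ix j) - (Jx j (min j (n - 2)) hmin).card) := by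
    refine fib (Jx j (min j (n - 2)) hmin) H ⌊M1⌋₊ TL (fun c hc => ?_) ?_
    · rw [hTL, mem_filter] at hc
      exact (hT c hc.1).1
    · intro c0 hc0 T' hT'
      apply Nat.le_floor
      have hc0' := hc0
      rw [hTL, mem_filter] at hc0'
      have hbox0 := (hT c0 hc0'.1).1
      have hmemT : ∀ c ∈ T', c ∈ T := by
        intro c hc
        have := (hT' c hc).1
        rw [hTL, mem_filter] at this
        exact this.1
      have htc : ∀ c ∈ T', top n g c = top n g c0 := by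
        intro c hc
        refine top_congr (by omega) g fun p hp => (hT' c hc).2 p ?_
        rw [mem_Jx]
        intro h1
        exact hp ⟨h1.1, h1.2.trans (min_le_right _ _)⟩
      have hinj : Set.InjOn P (T' : Set (Ix j → ℤ)) := by
        intro c hc c' hc' hcc
        refine inj_x hjn g (hT c (hmemT c hc)).1 (hT c' (hmemT c' hc')).1 (fun p hp => ?_) (hx2 c (hmemT c hc))
          (hP c (hmemT c hc)).2.2.2 ?_
        · rw [(hT' c hc).2 p, (hT' c' hc').2 p]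
          · rw [mem_Jx]; intro h1; exact hp h1.1
          · rw [mem_Jx]; intro h1; exact hp h1.1
        · rw [hcc]
          exact (hP c' (hmemT c' hc')).2.2.2
      rw [← card_image_of_injOn hinj]
      have hsub : T'.image P ⊆ L (top n g c0) := by
        intro Q hQ
        obtain ⟨c, hc, rfl⟩ := mem_image.1 hQ
        have h1 := (hT' c hc).1
        rw [hTL, mem_filter] at h1
        rw [← htc c hc]
        exact h1.2
      have h1 : ((T'.image P).card : ℝ) ≤ ((L (top n g c0)).card : ℝ) := by exact_mod_cast card_le_card hsub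
      rw [hM1]
      exact h1.trans (hL1 _ (htop c0 hbox0))
  -- heavy
  obtain ⟨M2, hM2⟩ : ∃ M2 : ℝ, M2 = C * (1 + Real.log U / Real.log (2 * (H : ℝ) ^ 2)) := ⟨_, rfl⟩
  have hM20 : 0 ≤ M2 := by rw [hM2]; positivity
  have hTHc : TH.card ≤ ⌊M2⌋₊ * (2 * H + 1) ^ (Fintype.card (Ix j) - ({ix 0 0 (by omega)} : Finset (Ix j)).card) := by
    refine fib {ix 0 0 (by omega)} H ⌊M2⌋₊ TH (fun c hc => ?_) ?_
    · rw [hTH, mem_filter] at hc
      exact (hT c hc.1).1
    · intro c0 hc0 T' hT'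
      apply Nat.le_floor
      have hc0' := hc0
      rw [hTH, mem_filter] at hc0'
      have hbox0 := (hT c0 hc0'.1).1
      have hmemT : ∀ c ∈ T', c ∈ T := by
        intro c hc
        have := (hT' c hc).1
        rw [hTH, mem_filter] at this
        exact this.1
      have hagree : ∀ c ∈ T', ∀ p : Ix j, p ≠ ix 0 0 (by omega) → c p = c0 p := fun c hc p hp => (hT' c hc).2 p (by simpa using hp)
      have htc : ∀ c ∈ T', top n g c = top n g c0 := by
        intro c hc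
        refine top_congr (by omega) g fun p hp => hagree c hc p ?_
        intro h1
        apply hp
        rw [h1]
        exact ⟨rfl, Nat.zero_le _⟩
      -- the array without the free constant
      obtain ⟨e', he'⟩ : ∃ e' : ℕ → ℕ → ℤ, e' = fun a b => if a = 0 ∧ b = 0 then g 0 0 else Fc g c0 a b := ⟨_, rfl⟩
      have hval : ∀ c ∈ T', ∀ x y : ℤ, ev n (Fc g c) x y = ev n e' x y + c (ix 0 0 (by omega)) := by
        intro c hc x y
        unfold ev
        rw [sum_range_succ', sum_range_succ' (n := n)]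
        have h1 : ∀ k ∈ range n, ∑ b ∈ range (k + 1 + 1), Fc g c (k + 1 - b) b * (x ^ (k + 1 - b) * y ^ b) =
            ∑ b ∈ range (k + 1 + 1), e' (k + 1 - b) b * (x ^ (k + 1 - b) * y ^ b) := by
          intro k _
          refine sum_congr rfl fun b hb => ?_
          have hb' := mem_range.1 hb
          rw [he']
          simp only
          rw [if_neg (by omega)]
          unfold Fc co
          congr 2
          split_ifs with h2
          · apply hagree c hc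
            intro h3
            have h4 := congrArg (fun q : Ix j => q.1.1.val) h3
            have h5 := congrArg (fun q : Ix j => q.1.2.val) h3
            simp only [ix] at h4 h5
            omega
          · rfl
        rw [sum_congr rfl h1]
        have h2 : ∑ b ∈ range (0 + 1), Fc g c (0 - b) b * (x ^ (0 - b) * y ^ b) = g 0 0 + c (ix 0 0 (by omega)) := by
          simp only [zero_add, range_one, sum_singleton, Nat.sub_zero, pow_zero, mul_one]
          unfold Fc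
          rw [co_of_le c (by omega : 0 + 0 ≤ j)]
        have h3 : ∑ b ∈ range (0 + 1), e' (0 - b) b * (x ^ (0 - b) * y ^ b) = g 0 0 := by
          rw [he']
          simp
        rw [h2, h3]
        ring
      have hv : ∀ c ∈ T', ev n e' (P c).1 (P c).2 = -c (ix 0 0 (by omega)) := by
        intro c hc
        have h1 := (hP c (hmemT c hc)).2.2.2
        rw [hval c hc] at h1
        linarith
      have hinj : Set.InjOn P (T' : Set (Ix j → ℤ)) := by
        intro c hc c' hc' hcc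
        have h1 := hv c hc
        have h2 := hv c' hc'
        rw [hcc, h2] at h1
        funext p
        by_cases hp : p = ix 0 0 (by omega)
        · rw [hp]
          linarith
        · rw [hagree c hc p hp, hagree c' hc' p hp]
      rw [← card_image_of_injOn hinj, hM2]
      refine hL2 (top n g c0) (htop c0 hbox0) e' ?_ ?_ _ ?_
      · intro i hi
        rw [he', top]
        simp only
        rw [if_neg (by omega), if_pos (by omega)]
      · intro b hb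
        rw [he']
        simp only
        split_ifs with h1
        · calc |(g 0 0 : ℝ)| ≤ B := g_le hg 0 0
            _ ≤ B * H := by nlinarith
        · exact Fc_le hB hH hg hbox0 _ _
      · intro Q hQ
        obtain ⟨c, hc, rfl⟩ := mem_image.1 hQ
        have h1 := (hT' c hc).1
        rw [hTH, mem_filter] at h1
        have h2 := hP c h1.1
        refine ⟨?_, ?_, h2.2.2.1, ?_⟩
        · rw [← htc c hc]
          exact h1.2
        · rw [← htc c hc]
          exact pt_of (by omega) hB hH hg (hT c h1.1).1 hK h2.1 (hKx c h1.1) h2.2.2.2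
        · rw [hv c hc, abs_neg]
          exact (hT c h1.1).1 _
  rw [Jx_card] at hTLc
  rw [card_singleton] at hTHc
  have f1 : (TL.card : ℝ) ≤ M1 * (2 * (H : ℝ) + 1) ^ (Fintype.card (Ix j) - (min j (n - 2) + 1)) := by
    calc (TL.card : ℝ) ≤ ((⌊M1⌋₊ * (2 * H + 1) ^ (Fintype.card (Ix j) - (min j (n - 2) + 1)) : ℕ) : ℝ) := by exact_mod_cast hTLc
      _ = (⌊M1⌋₊ : ℝ) * (2 * (H : ℝ) + 1) ^ (Fintype.card (Ix j) - (min j (n - 2) + 1)) := by push_cast; ring
      _ ≤ _ := by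
          have := Nat.floor_le hM10
          gcongr
  have f2 : (TH.card : ℝ) ≤ M2 * (2 * (H : ℝ) + 1) ^ (Fintype.card (Ix j) - 1) := by
    calc (TH.card : ℝ) ≤ ((⌊M2⌋₊ * (2 * H + 1) ^ (Fintype.card (Ix j) - 1) : ℕ) : ℝ) := by exact_mod_cast hTHc
      _ = (⌊M2⌋₊ : ℝ) * (2 * (H : ℝ) + 1) ^ (Fintype.card (Ix j) - 1) := by push_cast; ring
      _ ≤ _ := by
          have := Nat.floor_le hM20
          gcongr
  calc (T.card : ℝ) = TL.card + TH.card := by rw [hsum]; push_cast; ring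
    _ ≤ _ := add_le_add f1 f2
    _ = _ := by rw [hM1, hM2]; ring

/-- an irreducible form of degree at least two has no zero in `ℤ²` but `(0,0)` -/
private theorem nz_bas {n B : ℕ} (hn : 2 ≤ n) {e : ℕ → ℕ → ℤ} (hb : Bas n B e) : Nz n e := by
  intro v w hvw h0
  have hinj : Function.Injective (Int.castRingHom ℚ) := Int.cast_injective
  have hd : ((fm e n).map (Int.castRingHom ℚ)).natDegree = n := by
    rw [natDegree_map_eq_of_injective hinj, hb.deg]
  rcases eq_or_ne v 0 with hv | hv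
  · have hw : w ≠ 0 := by
      rcases hvw with h1 | h1
      · exact absurd hv h1
      · exact h1
    rw [hv, Finset.sum_eq_single n] at h0
    · rw [Nat.sub_self, pow_zero, one_mul] at h0
      have h1 : e 0 n = 0 := by
        rcases mul_eq_zero.1 h0 with h3 | h3
        · exact h3
        · exact absurd h3 (pow_ne_zero _ hw)
      have h2 : (fm e n).coeff n = 0 := by
        rw [fm_coeff, if_pos le_rfl, Nat.sub_self, h1]
      have h3 : fm e n = 0 := by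
        rw [← leadingCoeff_eq_zero, leadingCoeff, hb.deg, h2]
      have h4 := hb.irr.ne_zero
      rw [h3, Polynomial.map_zero] at h4
      exact h4 rfl
    · intro j hj hjn
      have := mem_range.1 hj
      rw [zero_pow (by omega : n - j ≠ 0), zero_mul, mul_zero]
    · intro h1
      exact absurd (mem_range.2 (Nat.lt_succ_self n)) h1
  · have hvq : (v : ℚ) ≠ 0 := by exact_mod_cast hv
    have h1 : ((fm e n).map (Int.castRingHom ℚ)).IsRoot ((w : ℚ) / v) := by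
      rw [IsRoot.def, eval_map]
      unfold fm
      rw [eval₂_finsetSum]
      have h3 : (v : ℚ) ^ n * ∑ j ∈ range (n + 1), (monomial j (e (n - j) j)).eval₂ (Int.castRingHom ℚ) ((w : ℚ) / v) =
          ((∑ j ∈ range (n + 1), e (n - j) j * (v ^ (n - j) * w ^ j) : ℤ) : ℚ) := by
        rw [Finset.mul_sum, Int.cast_sum]
        refine Finset.sum_congr rfl fun j hj => ?_
        have h4 := mem_range.1 hj
        rw [eval₂_monomial]
        have h5 : (v : ℚ) ^ n = (v : ℚ) ^ (n - j) * (v : ℚ) ^ j := by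
          rw [← pow_add]
          congr 1
          omega
        rw [h5, div_pow]
        push_cast
        rw [eq_intCast]
        field_simp
      rw [h0, Int.cast_zero] at h3
      rcases mul_eq_zero.1 h3 with h4 | h4
      · exact absurd h4 (pow_ne_zero _ hvq)
      · exact h4
    have h2 := degree_eq_one_of_irreducible_of_root hb.irr h1
    have h3 : ((fm e n).map (Int.castRingHom ℚ)).natDegree = 1 := natDegree_eq_of_degree_eq_some h2
    rw [hd] at h3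
    omega

/-- `co c` vanishes above degree two -/
private theorem ev_co {n : ℕ} (hn : 2 ≤ n) (c : Ix 2 → ℤ) (x y : ℤ) : ev n (co c) x y = ev 2 (co c) x y := by
  unfold ev
  symm
  refine Finset.sum_subset (range_subset_range.2 (by omega)) fun k hk hk2 => ?_
  refine Finset.sum_eq_zero fun j hj => ?_
  have h1 : ¬ k < 2 + 1 := fun h => hk2 (mem_range.2 h)
  have h2 := mem_range.1 hj
  unfold co
  rw [dif_neg (by omega), zero_mul]

/-- the logarithms -/
private theorem numx (E B H : ℕ) (hB : 2 ≤ B) (hH : 1 ≤ H) :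
    Real.log (((B * H : ℕ) : ℝ) ^ E) / Real.log (2 * (H : ℝ)) ≤ E * (2 * B + 1) ∧
    Real.log (((B * H : ℕ) : ℝ) ^ E) / Real.log (2 * (H : ℝ) ^ 2) ≤ E * (2 * B + 1) ∧
    √(H : ℝ) * (1 + Real.log (((B * H : ℕ) : ℝ) ^ E)) ≤ H * (1 + E * B + 2 * E) := by
  have hB' : (2 : ℝ) ≤ (B : ℝ) := by exact_mod_cast hB
  have hH' : (1 : ℝ) ≤ (H : ℝ) := by exact_mod_cast hH
  have hE : (0 : ℝ) ≤ (E : ℝ) := Nat.cast_nonneg E
  have hl : Real.log (((B * H : ℕ) : ℝ) ^ E) = E * (Real.log B + Real.log H) := by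
    rw [Real.log_pow, Nat.cast_mul, Real.log_mul (by linarith) (by linarith)]
  have h1 : Real.log (B : ℝ) ≤ B := by
    have := Real.log_le_sub_one_of_pos (by linarith : (0 : ℝ) < B)
    linarith
  have h2 : 0 ≤ Real.log (B : ℝ) := Real.log_nonneg (by linarith)
  have h3 : 0 ≤ Real.log (H : ℝ) := Real.log_nonneg hH'
  have h4 : (1 : ℝ) / 2 ≤ Real.log 2 := by
    have := Real.log_two_gt_d9
    linarith
  have h5 : Real.log (2 * (H : ℝ)) = Real.log 2 + Real.log H := by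
    rw [Real.log_mul (by norm_num) (by linarith)]
  have h6 : Real.log (2 * (H : ℝ) ^ 2) = Real.log 2 + 2 * Real.log H := by
    rw [Real.log_mul (by norm_num) (by positivity), Real.log_pow]
    norm_num
  have key : ∀ z : ℝ, Real.log 2 + Real.log H ≤ z → E * (Real.log B + Real.log H) / z ≤ E * (2 * B + 1) := by
    intro z hz
    have hz0 : 0 < z := by linarith
    rw [div_le_iff₀ hz0, mul_assoc]
    refine mul_le_mul_of_nonneg_left ?_ hE
    have h7 : (B : ℝ) ≤ 2 * B * z := by nlinarith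
    nlinarith
  refine ⟨?_, ?_, ?_⟩
  · rw [hl, h5]
    exact key _ le_rfl
  · rw [hl, h6]
    exact key _ (by linarith)
  · rw [hl]
    have hs1 : 1 ≤ √(H : ℝ) := Real.one_le_sqrt.2 hH'
    have hs2 : √(H : ℝ) * √(H : ℝ) = H := Real.mul_self_sqrt (by linarith)
    have hs3 : √(H : ℝ) ≤ H := by nlinarith
    have hs4 : Real.log (H : ℝ) ≤ 2 * √(H : ℝ) := by
      have h8 := Real.log_le_sub_one_of_pos (by linarith : (0 : ℝ) < √(H : ℝ))
      rw [Real.log_sqrt (by linarith)] at h8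
      linarith
    have hs5 : √(H : ℝ) * Real.log H ≤ 2 * H := by nlinarith
    have hs6 : √(H : ℝ) * Real.log B ≤ H * B := mul_le_mul hs3 h1 h2 (by linarith)
    have h9 : √(H : ℝ) * (1 + E * (Real.log B + Real.log H)) =
        √(H : ℝ) + E * (√(H : ℝ) * Real.log B + √(H : ℝ) * Real.log H) := by ring
    rw [h9]
    have h10 : (E : ℝ) * (√(H : ℝ) * Real.log B + √(H : ℝ) * Real.log H) ≤ E * (H * B + 2 * H) :=
      mul_le_mul_of_nonneg_left (by linarith) hE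
    nlinarith

/-- the final estimate -/
private theorem finx (E B H : ℕ) (hB : 2 ≤ B) (hH : 1 ≤ H) (C : ℝ) (hC : 1 ≤ C) :
    C * (Lm H (((B * H : ℕ) : ℝ) ^ E) * (2 * (H : ℝ) + 1) ^ 3 +
      (1 + Real.log (((B * H : ℕ) : ℝ) ^ E) / Real.log (2 * (H : ℝ) ^ 2)) * (2 * (H : ℝ) + 1) ^ 5) ≤
    C * ((B : ℝ) ^ (6 * E + 3) * (2 * (H : ℝ) + 1) ^ 5) := by
  have hB' : (2 : ℝ) ≤ (B : ℝ) := by exact_mod_cast hB
  have hH' : (1 : ℝ) ≤ (H : ℝ) := by exact_mod_cast hH
  have hE : (0 : ℝ) ≤ (E : ℝ) := Nat.cast_nonneg E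
  obtain ⟨a1, a2, a3⟩ := numx E B H hB hH
  obtain ⟨P, hP⟩ : ∃ P : ℝ, P = 2 + 3 * E * B + 3 * E := ⟨_, rfl⟩
  have hEB : 0 ≤ (E : ℝ) * B := by positivity
  have hP0 : 0 ≤ P := by rw [hP]; positivity
  have hLm : Lm H (((B * H : ℕ) : ℝ) ^ E) ≤ P * (H : ℝ) ^ 2 := by
    unfold Lm
    have b1 : (H : ℝ) ^ 2 * (1 + Real.log (((B * H : ℕ) : ℝ) ^ E) / Real.log (2 * (H : ℝ))) ≤
        (H : ℝ) ^ 2 * (1 + E * (2 * B + 1)) := by gcongr
    have b2 : (H : ℝ) * √(H : ℝ) * (1 + Real.log (((B * H : ℕ) : ℝ) ^ E)) ≤ (H : ℝ) * (H * (1 + E * B + 2 * E)) := by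
      rw [mul_assoc]
      gcongr
    calc _ ≤ (H : ℝ) ^ 2 * (1 + E * (2 * B + 1)) + (H : ℝ) * (H * (1 + E * B + 2 * E)) := add_le_add b1 b2
      _ = P * (H : ℝ) ^ 2 := by rw [hP]; ring
  have hH2 : (H : ℝ) ^ 2 ≤ (2 * (H : ℝ) + 1) ^ 2 := by gcongr; linarith
  have h1 : Lm H (((B * H : ℕ) : ℝ) ^ E) * (2 * (H : ℝ) + 1) ^ 3 ≤ P * (2 * (H : ℝ) + 1) ^ 5 := by
    calc _ ≤ P * (2 * (H : ℝ) + 1) ^ 2 * (2 * (H : ℝ) + 1) ^ 3 := by
          refine mul_le_mul_of_nonneg_right (hLm.trans ?_) (by positivity)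
          exact mul_le_mul_of_nonneg_left hH2 hP0
      _ = _ := by ring
  have h2 : (1 + Real.log (((B * H : ℕ) : ℝ) ^ E) / Real.log (2 * (H : ℝ) ^ 2)) * (2 * (H : ℝ) + 1) ^ 5 ≤
      P * (2 * (H : ℝ) + 1) ^ 5 := by
    refine mul_le_mul_of_nonneg_right ?_ (by positivity)
    rw [hP]
    nlinarith
  have h3 : 2 * P ≤ (B : ℝ) ^ (6 * E + 3) := by
    have c1 : (1 : ℝ) + 6 * E ≤ (B : ℝ) ^ (6 * E) := by
      have c2 := one_add_mul_le_pow (by norm_num : (-2 : ℝ) ≤ 1) (6 * E)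
      have c3 : ((1 : ℝ) + 1) ^ (6 * E) ≤ (B : ℝ) ^ (6 * E) := by
        gcongr
        linarith
      push_cast at c2
      linarith
    have c4 : (8 : ℝ) ≤ (B : ℝ) ^ 3 := by
      have : (2 : ℝ) ^ 3 ≤ (B : ℝ) ^ 3 := by gcongr
      linarith
    have c5 : (B : ℝ) + 1 ≤ (B : ℝ) ^ 3 := by nlinarith [sq_nonneg ((B : ℝ) - 2)]
    calc 2 * P = 4 + 6 * E * (B + 1) := by rw [hP]; ring
      _ ≤ (B : ℝ) ^ 3 + 6 * E * (B : ℝ) ^ 3 := by
          have : 6 * (E : ℝ) * (B + 1) ≤ 6 * E * (B : ℝ) ^ 3 := mul_le_mul_of_nonneg_left c5 (by positivity)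
          linarith
      _ = (1 + 6 * E) * (B : ℝ) ^ 3 := by ring
      _ ≤ (B : ℝ) ^ (6 * E) * (B : ℝ) ^ 3 := by gcongr
      _ = _ := by rw [pow_add]
  refine mul_le_mul_of_nonneg_left ?_ (by linarith)
  calc _ ≤ P * (2 * (H : ℝ) + 1) ^ 5 + P * (2 * (H : ℝ) + 1) ^ 5 := add_le_add h1 h2
    _ = 2 * P * (2 * (H : ℝ) + 1) ^ 5 := by ring
    _ ≤ _ := mul_le_mul_of_nonneg_right h3 (by positivity)

theorem chx (n E κ₀ : ℕ) (hn : 4 ≤ n) (h : ArxS n κ₀) : ∃ κ₁ κ : ℕ, ChxS n E κ₁ κ := by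
  refine ⟨(2 * n + 2) * κ₀ + 2, (2 * n + 2) * κ₀ + (6 * E + 3), ?_⟩
  intro B hB e hb H hH T hT
  have hB' : (2 : ℝ) ≤ (B : ℝ) := by exact_mod_cast hB
  have hH' : (1 : ℝ) ≤ (H : ℝ) := by exact_mod_cast hH
  have hpw : ∀ i : ℕ, 1 ≤ i → i ≤ 2 * n + 2 → (B : ℝ) ^ i ≤ (B : ℝ) ^ (2 * n + 2) := fun i _ hi =>
    pow_le_pow_right₀ (by linarith) hi
  have hBD : (B : ℝ) ≤ (B : ℝ) ^ (2 * n + 2) := by
    have := hpw 1 le_rfl (by omega)
    rwa [pow_one] at this
  have hCD : (n : ℝ) ^ 2 * B ≤ (B : ℝ) ^ (2 * n + 2) := by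
    have h1 : (n : ℝ) ≤ (B : ℝ) ^ n := by
      have h2 : ((n : ℕ) : ℝ) ≤ ((2 ^ n : ℕ) : ℝ) := by exact_mod_cast (Nat.lt_two_pow_self).le
      push_cast at h2
      refine h2.trans ?_
      gcongr
    have h3 : (B : ℝ) ≤ (B : ℝ) ^ 2 := by nlinarith
    calc (n : ℝ) ^ 2 * B ≤ ((B : ℝ) ^ n) ^ 2 * (B : ℝ) ^ 2 := by gcongr
      _ = _ := by rw [← pow_mul, ← pow_add]; congr 1; ring
  obtain ⟨C, K, hC, hCd, hK, hKd, harr⟩ := h ((B : ℝ) ^ (2 * n + 2)) B ((B : ℝ) ^ 2) ((n : ℝ) ^ 2 * B)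
    (hB'.trans hBD) (by linarith) hBD (by nlinarith) (hpw 2 (by omega) (by omega)) (by positivity) hCD
  rw [← pow_mul] at hCd hKd
  obtain ⟨g, hg⟩ : ∃ g : ℕ → ℕ → ℤ, g = fun a b => if a + b ≤ n then e a b else 0 := ⟨_, rfl⟩
  have hge : ∀ a b, a + b ≤ n → g a b = e a b := by
    intro a b hab
    rw [hg]
    exact if_pos hab
  have hgb : ∀ a b, |g a b| + 1 ≤ (B : ℤ) := by
    intro a b
    by_cases hab : a + b ≤ n
    · rw [hge a b hab]
      exact hb.bd a b hab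
    · have h1 : g a b = 0 := by
        rw [hg]
        exact if_neg hab
      rw [h1, abs_zero]
      have : (2 : ℤ) ≤ (B : ℤ) := by exact_mod_cast hB
      linarith
  have hz : Nz n g := nz_congr (fun a b hab => (hge a b hab.le).symm) (nz_bas (by omega) hb)
  have hBB : (B : ℝ) / (B : ℝ) ^ 2 = 1 / (B : ℝ) := by
    rw [div_eq_div_iff (by positivity) (by positivity)]
    ring
  have hgd : Gd n ((B : ℝ) / (B : ℝ) ^ 2) g := by
    rw [hBB]
    exact gd_congr (fun a b hab => (hge a b hab.le).symm) hb.gd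
  have hev : ∀ (c : Ix 2 → ℤ) (x y : ℤ), ev n (Fc g c) x y = ev n e x y + ev 2 (co c) x y := by
    intro c x y
    rw [← ev_co (by omega : 2 ≤ n) c x y]
    unfold ev
    rw [← Finset.sum_add_distrib]
    refine Finset.sum_congr rfl fun k hk => ?_
    rw [← Finset.sum_add_distrib]
    refine Finset.sum_congr rfl fun j hj => ?_
    have h1 := mem_range.1 hk
    have h2 := mem_range.1 hj
    unfold Fc
    rw [hge (k - j) j (by omega), add_mul]
  have hU1 : (1 : ℝ) ≤ ((B * H : ℕ) : ℝ) ^ E := by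
    refine one_le_pow₀ ?_
    push_cast
    nlinarith
  have hKB : K + 3 ≤ (B : ℝ) ^ ((2 * n + 2) * κ₀ + 2) := by
    have h1 : (1 : ℝ) ≤ (B : ℝ) ^ ((2 * n + 2) * κ₀) := one_le_pow₀ (by linarith)
    have h2 : (4 : ℝ) ≤ (B : ℝ) ^ 2 := by nlinarith
    rw [pow_add]
    calc K + 3 ≤ (B : ℝ) ^ ((2 * n + 2) * κ₀) * 4 := by linarith
      _ ≤ _ := mul_le_mul_of_nonneg_left h2 (by linarith)
  have h1 := ch1x n 2 hn (by omega) g B ((B : ℝ) ^ 2) hB hgb hz hgd C K hC hK harr H (((B * H : ℕ) : ℝ) ^ E) hH hU1 T (by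
    intro c hc
    obtain ⟨h2, x, y, h3, h4, h5, h6⟩ := hT c hc
    refine ⟨h2, x, y, h3, le_trans ?_ h4, h5, ?_⟩
    · exact mul_le_mul_of_nonneg_right hKB (by linarith)
    · rw [hev, h6])
  have h2 : min 2 (n - 2) = 2 := by omega
  have h3 : Fintype.card (Ix 2) = 6 := by rw [card_ix]
  rw [h2, h3] at h1
  have h4 := finx E B H hB hH C hC
  calc (T.card : ℝ) ≤ _ := h1
    _ ≤ _ := h4
    _ ≤ (B : ℝ) ^ ((2 * n + 2) * κ₀) * ((B : ℝ) ^ (6 * E + 3) * (2 * (H : ℝ) + 1) ^ 5) :=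
        mul_le_mul_of_nonneg_right hCd (by positivity)
    _ = _ := by rw [pow_add (B : ℝ) ((2 * n + 2) * κ₀) (6 * E + 3)]; ring

end Pool.Agent.H88.TX
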