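import Pool.Agent.H88.TX.Def

/-! # [H88 TX FEX] `H12.A3.few` with polynomial constants

Copy the proofs of `Pool.Agent.H12.A3.hvl` (H12/A3/Hvl.lean) and `few` (H12/A3/Arr.lean, first 115 lines), the lemmas they use are public and
imported. In `hvl` state the constant: `R₀ = 1 + 4 n + 4 (n+1) B C₀^n` (as in its proof), in `few` `C₀ = C₃ + 6 C ≤ 7 D`, and take
`C' = ⌈R₀ + 30 C⌉ + 1`-like (`exists_nat_gt` replaced by an explicit choice, e.g. `⌊R₀ + 4 (6 C) + 6 C⌋₊ + 1`), so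
`C' ≤ 2 + 4n + 4 (n+1) D (7D)^n + 30 D ≤ P(n) D^(n+1) ≤ D^κ` (`P(n) ≤ 2^k ≤ D^k`). Nothing depends on `κ₀`. -/

namespace Pool.Agent.H88.TX

open Finset Polynomial Pool.Agent.H8.AA Pool.Agent.H88.A2 Pool.Agent.H88.TU Pool.Agent.H12.A3

/-- heavy line lemma: a line close to a branch carries fewer than `n` integer points with value at most `H` far out -/
private theorem hvx (n : ℕ) (B C₀ R₀ : ℝ) (hB : 0 ≤ B) (hC : 1 ≤ C₀)
    (hR₀ : R₀ = 1 + 4 * n + 4 * ((n + 1) * (B * C₀ ^ n))) :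
    ∀ (e : ℕ → ℕ → ℤ) (H : ℕ), 1 ≤ H → |(e 0 n : ℝ)| ≤ B → (∀ b < n, |(e 0 b : ℝ)| ≤ B * H) → Nz n e →
    ∀ (p q v w : ℤ), v ≠ 0 → ∀ R : ℝ, R₀ ≤ R → ∀ s : Finset ℤ,
    (∀ k ∈ s, H * R * |(v : ℝ)| ≤ |((p + v * k : ℤ) : ℝ)| ∧ |ev n e (p + v * k) (q + w * k)| ≤ (H : ℤ)) →
    |(q : ℝ) - w * p / v| ≤ C₀ * H → s.card < n ∨ n = 0 := by
  have hK0 : 0 ≤ ((n : ℝ) + 1) * (B * C₀ ^ n) := by positivity
  have hn0 : (0 : ℝ) ≤ n := Nat.cast_nonneg n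
  intro e H hH ht hl hz p q v w hv R hR s hs hy
  by_contra hcon
  push Not at hcon
  obtain ⟨hcard, hn⟩ := hcon
  obtain ⟨s', hs', hs'c⟩ := exists_subset_card_eq hcard
  have hH' : (1 : ℝ) ≤ (H : ℝ) := by exact_mod_cast hH
  have hH0 : (0 : ℝ) < (H : ℝ) := by linarith
  have hR1 : 1 ≤ R := by rw [hR₀] at hR; linarith
  have hv' : (v : ℝ) ≠ 0 := by exact_mod_cast hv
  have hv0 : 0 < |(v : ℝ)| := abs_pos.2 hv'
  obtain ⟨Q, hQd, hQc, hQe, hQr⟩ := restrR n e p q v w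
  have h0 : (1 : ℝ) ≤ |(Q.map (Int.castRingHom ℝ)).coeff n| := by
    rw [coeff_map, hQc]
    have h1 := hz v w (Or.inl hv)
    have h2 := Int.one_le_abs h1
    have h3 : ((1 : ℤ) : ℝ) ≤ ((|∑ j ∈ range (n + 1), e (n - j) j * (v ^ (n - j) * w ^ j)| : ℤ) : ℝ) := by exact_mod_cast h2
    rw [Int.cast_abs] at h3
    simpa using h3
  have key := itp n (Q.map (Int.castRingHom ℝ)) (natDegree_map_le.trans hQd) s' hs'c (-(p : ℝ) / v) (H * R) H
    ((n + 1) * (B * C₀ ^ n) * (H : ℝ) ^ n) (by positivity) hH0.le ?_ ?_ ?_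
  · have h4 : (n : ℝ) * H / (H * R) ≤ 1 / 4 := by
      rw [div_le_iff₀ (by positivity)]
      have : 4 * (n : ℝ) ≤ R := by rw [hR₀] at hR; linarith
      nlinarith
    have h5 : (n + 1) * (B * C₀ ^ n) * (H : ℝ) ^ n / (H * R) ^ n ≤ 1 / 4 := by
      rw [mul_pow, div_le_iff₀ (by positivity)]
      have h6 : 4 * (((n : ℝ) + 1) * (B * C₀ ^ n)) ≤ R := by rw [hR₀] at hR; linarith
      have h7 : R ≤ R ^ n := le_self_pow₀ hR1 hn
      have h8 : (0 : ℝ) < (H : ℝ) ^ n := by positivity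
      nlinarith [mul_le_mul_of_nonneg_right (h6.trans h7) h8.le]
    linarith
  · intro k hk
    have h1 := (hs k (hs' hk)).1
    push_cast at h1
    have h2 : (k : ℝ) - -(p : ℝ) / v = (p + v * k) / v := by
      field_simp
      ring
    rw [h2, abs_div, le_div_iff₀ hv0]
    exact h1
  · intro k hk
    have h1 := (hs k (hs' hk)).2
    have h2 : (Q.map (Int.castRingHom ℝ)).eval (k : ℝ) = ((Q.eval k : ℤ) : ℝ) := by
      rw [eval_intCast_map]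
      simp
    rw [h2, hQe]
    exact_mod_cast h1
  · have h1 : (Q.map (Int.castRingHom ℝ)).eval (-(p : ℝ) / v) = aeval (-(p : ℝ) / v) Q := by
      rw [aeval_def, eval_map]
      rfl
    rw [h1, hQr]
    have h2 : (p : ℝ) + v * (-(p : ℝ) / v) = 0 := by
      field_simp
      ring
    have h3 : (q : ℝ) + w * (-(p : ℝ) / v) = q - w * p / v := by ring
    rw [h2, h3]
    exact axis_le n H hH B C₀ hB hC e ht hl _ hy

/-- heavy points of one class with small value: fewer than `n` -/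
theorem fex (n : ℕ) : ∃ κ : ℕ, FexS n κ := by
  classical
  obtain ⟨P, hP⟩ : ∃ P : ℕ, P = 31 + 4 * n + 4 * ((n + 1) * 7 ^ n) := ⟨_, rfl⟩
  refine ⟨P + (n + 1), ?_⟩
  intro D B C C₃ κ₀ hD hB hBD hC hCD hC₃ hC₃D hκ
  obtain ⟨R₀, hR₀d⟩ : ∃ R₀ : ℝ, R₀ = 1 + 4 * n + 4 * ((n + 1) * (B * (C₃ + 6 * C) ^ n)) := ⟨_, rfl⟩
  have hR₀ := hvx n B (C₃ + 6 * C) R₀ hB (by linarith) hR₀d
  have hK0 : 0 ≤ ((n : ℝ) + 1) * (B * (C₃ + 6 * C) ^ n) := by positivity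
  have hn0 : (0 : ℝ) ≤ n := Nat.cast_nonneg n
  have hR₀1 : 1 ≤ R₀ := by rw [hR₀d]; linarith
  obtain ⟨C', hC'd⟩ : ∃ C' : ℕ, C' = ⌊R₀ + 4 * (6 * C) + 6 * C⌋₊ + 1 := ⟨_, rfl⟩
  have hC' : R₀ + 4 * (6 * C) + 6 * C < (C' : ℝ) := by
    rw [hC'd]
    push_cast
    exact Nat.lt_floor_add_one _
  have hup : (C' : ℝ) ≤ D ^ (P + (n + 1)) := by
    have a1 : (C' : ℝ) ≤ R₀ + 4 * (6 * C) + 6 * C + 1 := by
      rw [hC'd]
      push_cast
      have := Nat.floor_le (show 0 ≤ R₀ + 4 * (6 * C) + 6 * C by linarith)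
      linarith
    have hD0 : (0 : ℝ) < D := by linarith
    have hD1 : (1 : ℝ) ≤ D := by linarith
    have a2 : (C₃ + 6 * C) ^ n ≤ (7 * D) ^ n := pow_le_pow_left₀ (by linarith) (by linarith) n
    have a3 : B * (C₃ + 6 * C) ^ n ≤ D * (7 * D) ^ n := mul_le_mul hBD a2 (by positivity) hD0.le
    have a4 : D * (7 * D) ^ n = 7 ^ n * D ^ (n + 1) := by rw [mul_pow, pow_succ]; ring
    have a5 : D ≤ D ^ (n + 1) := le_self_pow₀ hD1 (by omega)
    have a6 : (1 : ℝ) ≤ D ^ (n + 1) := one_le_pow₀ hD1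
    have a7 : ((n : ℝ) + 1) * (B * (C₃ + 6 * C) ^ n) ≤ ((n : ℝ) + 1) * (7 ^ n * D ^ (n + 1)) := by
      rw [← a4]
      exact mul_le_mul_of_nonneg_left a3 (by linarith)
    have a8 : (C' : ℝ) ≤ (P : ℝ) * D ^ (n + 1) := by
      rw [hP]
      push_cast
      have a9 : (n : ℝ) ≤ n * D ^ (n + 1) := le_mul_of_one_le_right hn0 a6
      rw [hR₀d] at a1
      nlinarith
    have a10 : (P : ℝ) ≤ D ^ P := by
      have b1 : ((P : ℕ) : ℝ) ≤ ((2 ^ P : ℕ) : ℝ) := by exact_mod_cast (Nat.lt_two_pow_self (n := P)).le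
      have b2 : ((2 ^ P : ℕ) : ℝ) ≤ D ^ P := by
        push_cast
        exact pow_le_pow_left₀ (by norm_num) hD P
      exact b1.trans b2
    rw [pow_add]
    exact a8.trans (mul_le_mul_of_nonneg_right a10 (by positivity))
  have hC'0 : (0 : ℝ) < (C' : ℝ) := by linarith
  have hC'1 : 1 ≤ C' := by
    have : 0 < C' := by exact_mod_cast hC'0
    exact this
  refine ⟨C', hC'1, hup, ?_⟩
  intro e H θ hH ht hl hz S h1 h2 h3 h4 h5 h6
  rcases S.eq_empty_or_nonempty with hS | ⟨P0, hP0⟩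
  · right; right
    rw [hS, card_empty]
  have hH' : (1 : ℝ) ≤ (H : ℝ) := by exact_mod_cast hH
  have hH0 : (0 : ℝ) < (H : ℝ) := by linarith
  obtain ⟨v, hv⟩ := h1 P0 hP0
  have hv0 : (v.1 : ℝ) ≠ 0 := by exact_mod_cast hv.2.1
  have hva : 0 < |(v.1 : ℝ)| := abs_pos.2 hv0
  have hva1 : 1 ≤ |(v.1 : ℝ)| := by
    have := Int.one_le_abs hv.2.1
    have h7 : ((1 : ℤ) : ℝ) ≤ ((|v.1| : ℤ) : ℝ) := by exact_mod_cast this
    rw [Int.cast_abs] at h7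
    simpa using h7
  have hcr : ∀ P ∈ S, |(v.1 : ℝ)| * ((C' * H : ℕ) : ℝ) * (κ₀ * H) ≤ |(P.1 : ℝ)| ∧ (P.1 - P0.1) * v.2 = (P.2 - P0.2) * v.1 := by
    intro P hP
    obtain ⟨w, hw⟩ := h1 P hP
    have h7 := crs C κ₀ θ (6 * C) H C' hH hκ hC (by linarith) (by linarith) P0 P v w hv hw (h3 P0 hP0 P hP) (h4 P0 hP0 P hP)
      (h5 P0 hP0 P hP) (h5 P hP P0 hP0)
    refine ⟨?_, h7.2⟩
    have h8 := hw.2.2.1
    rcases h7.1 with h | h
    · rw [h] at h8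
      exact h8
    · rw [h] at h8
      simp only [Prod.fst_neg, Int.cast_neg, abs_neg] at h8
      exact h8
  have hk : ∀ P : ℤ × ℤ, ∃ k : ℤ, P ∈ S → P.1 = P0.1 + v.1 * k ∧ P.2 = P0.2 + v.2 * k := by
    intro P
    by_cases hP : P ∈ S
    · have h7 := (hcr P hP).2
      have h8 : v.1 ∣ (P.1 - P0.1) * v.2 := ⟨P.2 - P0.2, by rw [h7, mul_comm]⟩
      obtain ⟨k, hk⟩ := hv.1.dvd_of_dvd_mul_right h8
      refine ⟨k, fun _ => ⟨by linarith, ?_⟩⟩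
      rw [hk] at h7
      have h9 : (v.2 * k) * v.1 = (P.2 - P0.2) * v.1 := by linarith
      have := mul_right_cancel₀ hv.2.1 h9
      linarith
    · exact ⟨0, fun h => absurd h hP⟩
  choose k hk using hk
  have hinj : Set.InjOn k (S : Set (ℤ × ℤ)) := by
    intro Q hQ Q' hQ' h
    obtain ⟨a1, a2⟩ := hk Q hQ
    obtain ⟨a3, a4⟩ := hk Q' hQ'
    rw [h] at a1 a2
    ext
    · rw [a1, a3]
    · rw [a2, a4]
  have hcard : (S.image k).card = S.card := card_image_of_injOn hinj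
  have key := hR₀ e H hH ht hl hz P0.1 P0.2 v.1 v.2 hv.2.1 (κ₀ * C') ?_ (S.image k) ?_ ?_
  · rw [hcard] at key
    rcases key with h | h
    · exact Or.inl h
    · exact Or.inr (Or.inl h)
  · have : R₀ ≤ C' := by linarith
    calc R₀ ≤ C' := this
      _ ≤ κ₀ * C' := le_mul_of_one_le_left hC'0.le hκ
  · intro a ha
    obtain ⟨P, hP, rfl⟩ := mem_image.1 ha
    obtain ⟨a1, a2⟩ := hk P hP
    rw [← a1, ← a2]
    refine ⟨?_, h6 P hP⟩
    have h7 := (hcr P hP).1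
    push_cast at h7
    calc (H : ℝ) * (κ₀ * C') * |(v.1 : ℝ)| ≤ (H : ℝ) * (κ₀ * C') * |(v.1 : ℝ)| * H := le_mul_of_one_le_right (by positivity) hH'
      _ = |(v.1 : ℝ)| * (C' * H) * (κ₀ * H) := by ring
      _ ≤ _ := h7
  · have h7 := h2 P0 hP0
    have e1 : (P0.2 : ℝ) - v.2 * P0.1 / v.1 = (P0.2 - θ * P0.1) - (v.2 - θ * v.1) * P0.1 / v.1 := by
      field_simp
      ring
    rw [e1]
    refine (abs_sub _ _).trans ?_
    have h8 : |((v.2 : ℝ) - θ * v.1) * P0.1 / v.1| ≤ 6 * C * H := by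
      rw [abs_div, abs_mul, div_le_iff₀ hva]
      have h9 := hv.2.2.2
      push_cast at h9
      have hCH : (1 : ℝ) ≤ C' * H := by
        have : (1 : ℝ) ≤ (C' : ℝ) := by exact_mod_cast hC'1
        nlinarith
      have h10 : |(v.2 : ℝ) - θ * v.1| * |(P0.1 : ℝ)| ≤ |(v.2 : ℝ) - θ * v.1| * (C' * H) * |(P0.1 : ℝ)| := by
        have : 0 ≤ |(v.2 : ℝ) - θ * v.1| * |(P0.1 : ℝ)| := by positivity
        calc |(v.2 : ℝ) - θ * v.1| * |(P0.1 : ℝ)| ≤ |(v.2 : ℝ) - θ * v.1| * |(P0.1 : ℝ)| * (C' * H) := le_mul_of_one_le_right this hCH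
          _ = _ := by ring
      have h11 : 6 * C * H ≤ 6 * C * H * |(v.1 : ℝ)| := le_mul_of_one_le_right (by positivity) hva1
      linarith
    calc _ ≤ C₃ * H + 6 * C * H := add_le_add h7 h8
      _ = _ := by ring

end Pool.Agent.H88.TX
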