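import Pool.Agent.H88.TX.Def

/-! # [H88 TX UQX] `j = 2`: all but `B^κ H^5` of the solvable members have exactly one integer point

Copy the proof of `Pool.Agent.H82.TO.uniq2` (H82/TO/Uq.lean, 150 lines) with `big` replaced by `h` (`BgxS n κ`): members with a zero of size `≥ B^κ S` are at most
`B^κ (2H+1)^5 ≤ B^κ 3^5 H^5`; members with two different zeros of size `≤ R = ⌈B^κ S⌉`: `pairs2` (absolute constant `C₂`): `C₂ H³ (R⁴ + H R²)`, `R ≤ 2 B^κ S`,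
`S² ≤ H`: `≤ 32 C₂ B^(4κ) H^5`. So `κ'` with `3^5 + 32 C₂ ≤ 2^k`, `κ' = 4 κ + k`; `bad` is monotone decreasing in the radius (see how `uniq2`/`solvable` use it:
`B^κ' S ≥ B^κ S`). `S = H^(1/(n-2))`, `S^(n-2) = H`. -/

namespace Pool.Agent.H88.TX

open Finset Polynomial Pool.Agent.H8.AA Pool.Agent.H88.A2 Pool.Agent.H88.TU Pool.Agent.H12.A3

theorem uqx (n κ : ℕ) (hn : 4 ≤ n) (h : BgxS n κ) : ∃ κ' : ℕ, UqxS n κ' := by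
  obtain ⟨Cp, hCp, hpair⟩ := Pool.Agent.H82.TO.pairs2
  obtain ⟨k, hk⟩ : ∃ k : ℕ, 243 + 2 * Cp < 2 ^ k := pow_unbounded_of_one_lt _ (by norm_num)
  refine ⟨4 * κ + k, ?_⟩
  intro B hB G hG hGB H hH
  have hB2 : (2 : ℝ) ≤ (B : ℝ) := by exact_mod_cast hB
  have hB1 : (1 : ℝ) ≤ (B : ℝ) := by linarith
  have hH' : (1 : ℝ) ≤ (H : ℝ) := by exact_mod_cast hH
  have hH0 : (0 : ℝ) < (H : ℝ) := by linarith
  obtain ⟨A, hA⟩ : ∃ A : ℝ, A = (B : ℝ) ^ κ := ⟨_, rfl⟩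
  have hA1 : 1 ≤ A := by
    rw [hA]
    exact one_le_pow₀ hB1
  have hA0 : (0 : ℝ) < A := by linarith
  have hnr : (0 : ℝ) < ((n - 2 : ℕ) : ℝ) := by exact_mod_cast (by omega : 0 < n - 2)
  obtain ⟨S, hS⟩ : ∃ S : ℝ, S = (H : ℝ) ^ (1 / ((n - 2 : ℕ) : ℝ)) := ⟨_, rfl⟩
  have hS1 : 1 ≤ S := by rw [hS]; exact Real.one_le_rpow hH' (by positivity)
  have hS0 : 0 < S := by linarith
  have hSH : S ^ (n - 2) = H := by
    rw [hS, ← Real.rpow_natCast, ← Real.rpow_mul hH0.le, one_div, inv_mul_cancel₀ hnr.ne', Real.rpow_one]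
  have hS2 : S ^ 2 ≤ H := by
    rw [← hSH]
    exact pow_le_pow_right₀ hS1 (by omega)
  have hS4 : S ^ 4 ≤ (H : ℝ) ^ 2 := by
    calc S ^ 4 = (S ^ 2) ^ 2 := by ring
      _ ≤ (H : ℝ) ^ 2 := pow_le_pow_left₀ (by positivity) hS2 2
  rw [← hS]
  have hpw : (B : ℝ) ^ κ ≤ (B : ℝ) ^ (4 * κ + k) := pow_le_pow_right₀ hB1 (by omega)
  have hmono : (Pool.Agent.H82.TO.bad 2 G H ((B : ℝ) ^ (4 * κ + k) * S) : ℝ) ≤
      (Pool.Agent.H82.TO.bad 2 G H (A * S) : ℝ) := by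
    exact Nat.cast_le.2 (Pool.Agent.H82.TO.bad_mono 2 G H (mul_le_mul_of_nonneg_right (by rw [hA]; exact hpw) hS0.le))
  refine hmono.trans ?_
  obtain ⟨Tb, Tp, hle, hb, hp⟩ := Pool.Agent.H82.TO.bad_split 2 G H (A * S) (by positivity)
  have hle' : (Pool.Agent.H82.TO.bad 2 G H (A * S) : ℝ) ≤ Tb.card + Tp.card := by exact_mod_cast hle
  have hc1 := h B hB G hG hGB H S hH hS1 hSH Tb (fun c hc => by
    obtain ⟨h1, P, h2, h3⟩ := hb c hc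
    refine ⟨h1, P, h2, ?_⟩
    rw [← hA]
    exact h3)
  rw [← hA] at hc1
  have hTS1 : 1 ≤ A * S := by nlinarith
  have hR1 : 1 ≤ ⌊A * S⌋₊ := Nat.floor_pos.2 hTS1
  have hc2 := hpair H ⌊A * S⌋₊ hH hR1 (fun P => - MvPolynomial.eval ![P.1, P.2] G) Tp hp
  obtain ⟨r, hr⟩ : ∃ r : ℝ, r = ((⌊A * S⌋₊ : ℕ) : ℝ) := ⟨_, rfl⟩
  rw [← hr] at hc2
  have hr0 : 0 ≤ r := by rw [hr]; positivity
  have hrle : r ≤ A * S := by rw [hr]; exact Nat.floor_le (by positivity)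
  have hK3 : 2 * (H : ℝ) + 1 ≤ 3 * H := by linarith
  have hA4 : A ≤ A ^ 4 := le_self_pow₀ hA1 (by norm_num)
  have f1 : (Tb.card : ℝ) ≤ 243 * A ^ 4 * (H : ℝ) ^ 5 := by
    refine hc1.trans ?_
    have e3 : (2 * (H : ℝ) + 1) ^ 5 ≤ 243 * (H : ℝ) ^ 5 := by
      calc (2 * (H : ℝ) + 1) ^ 5 ≤ (3 * H) ^ 5 := pow_le_pow_left₀ (by positivity) hK3 5
        _ = _ := by ring
    calc A * (2 * (H : ℝ) + 1) ^ 5 ≤ A ^ 4 * (243 * (H : ℝ) ^ 5) :=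
          mul_le_mul hA4 e3 (by positivity) (by positivity)
      _ = _ := by ring
  have f2 : (Tp.card : ℝ) ≤ 2 * Cp * A ^ 4 * (H : ℝ) ^ 5 := by
    refine hc2.trans ?_
    have e1 : r ^ 4 ≤ A ^ 4 * (H : ℝ) ^ 2 := by
      calc r ^ 4 ≤ (A * S) ^ 4 := pow_le_pow_left₀ hr0 hrle 4
        _ = A ^ 4 * S ^ 4 := by ring
        _ ≤ A ^ 4 * (H : ℝ) ^ 2 := by gcongr
    have e2 : r ^ 2 ≤ A ^ 4 * H := by
      calc r ^ 2 ≤ (A * S) ^ 2 := pow_le_pow_left₀ hr0 hrle 2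
        _ = A ^ 2 * S ^ 2 := by ring
        _ ≤ A ^ 4 * H := by
          refine mul_le_mul (pow_le_pow_right₀ hA1 (by norm_num)) hS2 (by positivity) (by positivity)
    calc Cp * (H : ℝ) ^ 3 * (r ^ 4 + H * r ^ 2) ≤ Cp * (H : ℝ) ^ 3 * (A ^ 4 * (H : ℝ) ^ 2 + H * (A ^ 4 * H)) := by gcongr
      _ = _ := by ring
  refine hle'.trans ?_
  have hAB : A ^ 4 = (B : ℝ) ^ (4 * κ) := by
    rw [hA, ← pow_mul, Nat.mul_comm]
  have h2k : (2 : ℝ) ^ k ≤ (B : ℝ) ^ k := pow_le_pow_left₀ (by norm_num) hB2 k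
  calc (Tb.card : ℝ) + Tp.card ≤ 243 * A ^ 4 * (H : ℝ) ^ 5 + 2 * Cp * A ^ 4 * (H : ℝ) ^ 5 := add_le_add f1 f2
    _ = A ^ 4 * (243 + 2 * Cp) * (H : ℝ) ^ 5 := by ring
    _ ≤ A ^ 4 * (B : ℝ) ^ k * (H : ℝ) ^ 5 := by
        refine mul_le_mul_of_nonneg_right ?_ (by positivity)
        exact mul_le_mul_of_nonneg_left (hk.le.trans h2k) (by positivity)
    _ = (B : ℝ) ^ (4 * κ + k) * (H : ℝ) ^ 5 := by rw [hAB, pow_add]

end Pool.Agent.H88.TX
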