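import Pool.Agent.H88.TX.Fin
import Pool.Agent.H88.TX.Nlx
import Pool.Agent.H88.TX.Fex
import Pool.Agent.H88.TX.Arx
import Pool.Agent.H88.TX.Chx
import Pool.Agent.H88.TX.Ner
import Pool.Agent.H88.TX.Bgx
import Pool.Agent.H88.TX.Uqx
import Pool.Agent.H88.TX.Lox
import Pool.Agent.H82.TE.Frg
import Pool.Agent.H82.TE.Te1

/-! # [H88 TX ALL] The effective statement in every stratum -/

namespace Pool.Agent.H88.TX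

open MvPolynomial Pool.Agent.H88.A2

theorem arx_ex (n : ℕ) (hn : 2 ≤ n) : ∃ κ : ℕ, ArxS n κ := by
  obtain ⟨a, ha⟩ := nlx n
  obtain ⟨b, hb⟩ := fex n
  exact arx n a b hn ha hb

theorem fax_ex (n : ℕ) (hn : 4 ≤ n) : ∃ E κ : ℕ, FaxS n E κ := by
  obtain ⟨E, κ, h⟩ := Pool.Agent.H82.TE.far n hn
  exact ⟨E, κ, h⟩

theorem eff2_ex (n : ℕ) (hn : 4 ≤ n) : ∃ κ : ℕ, EffS n 2 κ := by
  obtain ⟨κa, ha⟩ := arx_ex n (by omega)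
  obtain ⟨κb, hb⟩ := bgx n hn (fax_ex n hn) (fun E => chx n E κa hn ha) (fun κ₁ => ner n κ₁ hn)
  obtain ⟨κm, hm⟩ := mo2
  obtain ⟨κu, hu⟩ := uqx n κb hn hb
  obtain ⟨κl, hl⟩ := lox n hn
  exact eff2 n κb κm κu κl hn hb hm hu hl

theorem te1_ex (n : ℕ) (hn : 4 ≤ n) : ∃ κ : ℕ, Te1S n κ := by
  obtain ⟨κ, h⟩ := Pool.Agent.H82.TE.te1 n hn
  exact ⟨κ, h⟩

theorem fin : ∃ κ : ℕ → ℕ, ∀ (n j : ℕ) (G : MvPolynomial (Fin 2) ℤ),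
    Hyp0 n j G → ∃ W : ℝ, 2 ≤ W ∧ ((5 ≤ n ∨ j ≤ 2) → ∀ B : ℕ, 2 ≤ B → (∀ m, |G.coeff m| < (B : ℤ)) → W ≤ (B : ℝ) ^ κ n) ∧
      Eff n j G W := finx te1_ex eff2_ex

end Pool.Agent.H88.TX
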