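import Pool.Agent.H88.TU.Sta
import Pool.Agent.H12.A3.Arr2
import Pool.Agent.H82.A3.Ch
import Pool.Agent.H82.TO.Uq

/-! # [H88 TX DEF] TSU for `j = 2`, effective and uniform in `G`, no Roth, no condition on `G` (MP_821da1_nt): statements of the modules

Every exponent `κ` depends only on `n` (and `E`); all statements are monotone in `κ`. -/

namespace Pool.Agent.H88.TX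

open Finset Polynomial Pool.Agent.H8.AA Pool.Agent.H88.A2 Pool.Agent.H88.TU Pool.Agent.H12.A3

/-- NLX: `H12.A3.nlp` with polynomial constants -/
def NlxS (n κ : ℕ) : Prop :=
    ∀ D B A C₁ : ℝ, 2 ≤ D → 1 ≤ B → B ≤ D → 1 ≤ A → A ≤ D → 0 ≤ C₁ → C₁ ≤ D →
    ∃ C₃ C K : ℝ, 1 ≤ C₃ ∧ C₃ ≤ D ^ κ ∧ 1 ≤ C ∧ C ≤ D ^ κ ∧ 1 ≤ K ∧ K ≤ D ^ κ ∧
    ∀ (e : ℕ → ℕ → ℤ) (H : ℕ), 1 ≤ H → Tp n B H e → Gd n (B / A) e →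
    (∀ x y : ℤ, Pt n e H C₁ K x y → ∃ θ : ℝ, aeval θ (fm e n) = 0 ∧ |y - θ * x| ≤ C₃ * H ∧ |θ| ≤ 2) ∧
    (∀ (x y x' y' : ℤ) (θ : ℝ), Pt n e H C₁ K x y → Pt n e H C₁ K x' y' → aeval θ (fm e n) = 0 → |θ| ≤ 2 →
      |y - θ * x| ≤ C₃ * H → |y' - θ * x'| ≤ C₃ * H →
      |(y - θ * x) - (y' - θ * x')| ≤ C * (H ^ 2 * |1 / (x : ℝ) - 1 / x'| + H * (1 / |(x : ℝ)| + 1 / |(x' : ℝ)|)))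

/-- FEX: `H12.A3.few` with polynomial constants -/
def FexS (n κ : ℕ) : Prop :=
    ∀ D B C C₃ κ₀ : ℝ, 2 ≤ D → 0 ≤ B → B ≤ D → 1 ≤ C → C ≤ D → 1 ≤ C₃ → C₃ ≤ D → 1 ≤ κ₀ →
    ∃ C' : ℕ, 1 ≤ C' ∧ (C' : ℝ) ≤ D ^ κ ∧
    ∀ (e : ℕ → ℕ → ℤ) (H : ℕ) (θ : ℝ), 1 ≤ H → |(e 0 n : ℝ)| ≤ B → (∀ b < n, |(e 0 b : ℝ)| ≤ B * H) → Nz n e →
    ∀ S : Finset (ℤ × ℤ), (∀ P ∈ S, ∃ v, Hv θ κ₀ (6 * C) H (C' * H) P v) → (∀ P ∈ S, |(P.2 : ℝ) - θ * P.1| ≤ C₃ * H) →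
    (∀ P ∈ S, ∀ Q ∈ S, Nd θ C H P Q) → (∀ P ∈ S, ∀ Q ∈ S, 0 < P.1 * Q.1) →
    (∀ P ∈ S, ∀ Q ∈ S, |(P.1 : ℝ)| ≤ 2 * H ^ 2 * |(Q.1 : ℝ)|) →
    (∀ P ∈ S, |ev n e P.1 P.2| ≤ (H : ℤ)) → S.card < n ∨ n = 0 ∨ S.card = 0

/-- ARX: `H12.A3.arrs` with polynomial constants -/
def ArxS (n κ : ℕ) : Prop :=
    ∀ D B A C₁ : ℝ, 2 ≤ D → 1 ≤ B → B ≤ D → 1 ≤ A → A ≤ D → 0 ≤ C₁ → C₁ ≤ D →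
    ∃ C K : ℝ, 1 ≤ C ∧ C ≤ D ^ κ ∧ 1 ≤ K ∧ K ≤ D ^ κ ∧
    ∀ (e : ℕ → ℕ → ℤ) (H : ℕ) (U : ℝ), 1 ≤ H → 1 ≤ U → Tp n B H e → Nz n e → Gd n (B / A) e →
    ∃ L : Finset (ℤ × ℤ), (L.card : ℝ) ≤ C * ((H : ℝ) ^ 2 * (1 + Real.log U / Real.log (2 * H)) + H * √H * (1 + Real.log U)) ∧
    ∀ e' : ℕ → ℕ → ℤ, (∀ j ≤ n, e' (n - j) j = e (n - j) j) → (∀ b < n, |(e' 0 b : ℝ)| ≤ B * H) → ∀ S : Finset (ℤ × ℤ),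
    (∀ P ∈ S, P ∉ L ∧ Pt n e H C₁ K P.1 P.2 ∧ |(P.1 : ℝ)| ≤ U ∧ |ev n e' P.1 P.2| ≤ (H : ℤ)) →
    (S.card : ℝ) ≤ C * (1 + Real.log U / Real.log (2 * (H : ℝ) ^ 2))

/-- CHX: `j = 2`, members with a zero in the middle range, one chart -/
def ChxS (n E κ₁ κ : ℕ) : Prop :=
    ∀ B : ℕ, 2 ≤ B → ∀ e : ℕ → ℕ → ℤ, Bas n B e → ∀ H : ℕ, 1 ≤ H → ∀ T : Finset (Ix 2 → ℤ),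
    (∀ c ∈ T, (∀ p, |c p| ≤ (H : ℤ)) ∧ ∃ x y : ℤ, |y| ≤ |x| ∧ (B : ℝ) ^ κ₁ * H ≤ |(x : ℝ)| ∧
      |(x : ℝ)| ≤ ((B * H : ℕ) : ℝ) ^ E ∧ ev n e x y + ev 2 (co c) x y = 0) →
    (T.card : ℝ) ≤ (B : ℝ) ^ κ * (2 * (H : ℝ) + 1) ^ 5

/-- NER: `j = 2`, members with a zero near the border of the box, one chart -/
def NerS (n κ₀ κ₁ κ : ℕ) : Prop :=
    ∀ B : ℕ, 2 ≤ B → ∀ e : ℕ → ℕ → ℤ, Bas n B e → ∀ (H : ℕ) (S : ℝ), 1 ≤ H → 1 ≤ S → S ^ (n - 2) = H →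
    ∀ T : Finset (Ix 2 → ℤ), (∀ c ∈ T, (∀ p, |c p| ≤ (H : ℤ)) ∧ ∃ x y : ℤ, |y| ≤ |x| ∧ (B : ℝ) ^ κ₀ * S ≤ |(x : ℝ)| ∧
      |(x : ℝ)| ≤ (B : ℝ) ^ κ₁ * H ∧ ev n e x y + ev 2 (co c) x y = 0) →
    (T.card : ℝ) ≤ (B : ℝ) ^ κ * (2 * (H : ℝ) + 1) ^ 5

open MvPolynomial in
/-- FAX: the points beyond `(B H)^E`, uniform in `G` (= `Pool.Agent.H82.TE.FarS`, helper96) -/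
def FaxS (n E κ : ℕ) : Prop :=
    ∀ (j : ℕ) (G : MvPolynomial (Fin 2) ℤ), Hyp0 n j G → ∀ (B H : ℕ), 2 ≤ B → (∀ m, |G.coeff m| + 1 ≤ (B : ℤ)) → 1 ≤ H →
    ∀ T : Finset (Ix j → ℤ), (∀ c ∈ T, (∀ p, |c p| ≤ (H : ℤ)) ∧
      ∃ P : Fin 2 → ℤ, eval P (G + pol c) = 0 ∧ ∃ i, ((B * H : ℕ) : ℤ) ^ E < |P i|) →
    (T.card : ℝ) ≤ κ * (2 * (H : ℝ) + 1) ^ (Fintype.card (Ix j) - 1)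

open MvPolynomial in
/-- BGX: `j = 2`, members with a zero of size at least `B^κ S` -/
def BgxS (n κ : ℕ) : Prop :=
    ∀ B : ℕ, 2 ≤ B → ∀ G : MvPolynomial (Fin 2) ℤ, Hyp0 n 2 G → (∀ m, |G.coeff m| + 1 ≤ (B : ℤ)) →
    ∀ (H : ℕ) (S : ℝ), 1 ≤ H → 1 ≤ S → S ^ (n - 2) = H → ∀ T : Finset (Ix 2 → ℤ),
    (∀ c ∈ T, (∀ p, |c p| ≤ (H : ℤ)) ∧ ∃ P : Fin 2 → ℤ, eval P (G + pol c) = 0 ∧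
      (B : ℝ) ^ κ * S ≤ max |(P 0 : ℝ)| |(P 1 : ℝ)|) →
    (T.card : ℝ) ≤ (B : ℝ) ^ κ * (2 * (H : ℝ) + 1) ^ 5

/-- UQX: `j = 2`, all but `B^κ H^5` of the solvable members have exactly one integer point, and it is small -/
def UqxS (n κ : ℕ) : Prop :=
    ∀ B : ℕ, 2 ≤ B → ∀ G : MvPolynomial (Fin 2) ℤ, Hyp0 n 2 G → (∀ m, |G.coeff m| + 1 ≤ (B : ℤ)) → ∀ H : ℕ, 1 ≤ H →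
    (Pool.Agent.H82.TO.bad 2 G H ((B : ℝ) ^ κ * (H : ℝ) ^ (1 / ((n - 2 : ℕ) : ℝ))) : ℝ) ≤ (B : ℝ) ^ κ * (H : ℝ) ^ 5

end Pool.Agent.H88.TX
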