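import Pool.Agent.H88.TX.Loc
import Pool.Agent.H88.TX.Lox
import Pool.Agent.H88.TU.Wco

/-! # [H88 TX EFF] The effective statement for one `G`: order of the number of solvable members and location, every stratum -/

namespace Pool.Agent.H88.TX

open Finset MvPolynomial Pool.Agent.H8.AA Pool.Agent.H88.A2 Pool.Agent.H88.TS Pool.Agent.H82.TO Pool.Agent.H15.SC

/-- the effective statement -/
def Eff (n j : ℕ) (G : MvPolynomial (Fin 2) ℤ) (W : ℝ) : Prop := ∀ H : ℕ, W ≤ (H : ℝ) →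
    Eh n j H ≤ W * (cnt j G H : ℝ) ∧ (cnt j G H : ℝ) ≤ W * Eh n j H ∧ ∀ T : ℕ, 1 ≤ T →
    (bad j G H ((T : ℝ) * sz n j H) : ℝ) ≤ W * (1 / (T : ℝ) + 1 / Real.log H) * (cnt j G H : ℝ)

theorem Eh_nonneg (n j H : ℕ) (hH : 1 ≤ H) : 0 ≤ Eh n j H := by
  have h1 : (1 : ℝ) ≤ (H : ℝ) := by exact_mod_cast hH
  have h2 := Real.log_nonneg h1
  unfold Eh
  split_ifs
  · positivity
  · positivity
  · positivity

theorem Eff.mono {n j : ℕ} {G : MvPolynomial (Fin 2) ℤ} {W W' : ℝ} (hW : 1 ≤ W) (h : Eff n j G W) (hWW : W ≤ W') : Eff n j G W' := by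
  intro H hH
  have hWH : W ≤ (H : ℝ) := hWW.trans hH
  have hH1 : (1 : ℝ) ≤ H := hW.trans hWH
  have hH1' : 1 ≤ H := by exact_mod_cast hH1
  obtain ⟨h1, h2, h3⟩ := h H hWH
  have hc0 : (0 : ℝ) ≤ (cnt j G H : ℝ) := Nat.cast_nonneg _
  have hE0 := Eh_nonneg n j H hH1'
  refine ⟨h1.trans (mul_le_mul_of_nonneg_right hWW hc0), h2.trans (mul_le_mul_of_nonneg_right hWW hE0), fun T hT => ?_⟩
  refine (h3 T hT).trans ?_
  have h4 := Real.log_nonneg hH1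
  have h5 : 0 ≤ 1 / (T : ℝ) + 1 / Real.log H := by positivity
  exact mul_le_mul_of_nonneg_right (mul_le_mul_of_nonneg_right hWW h5) hc0

/-- effective and uniform in `G` -/
def EffS (n j κ : ℕ) : Prop :=
    ∀ B : ℕ, 2 ≤ B → ∀ G : MvPolynomial (Fin 2) ℤ, Hyp0 n j G → (∀ m, |G.coeff m| + 1 ≤ (B : ℤ)) → Eff n j G ((B : ℝ) ^ κ)

/-- helper82's theorem `te1` for `j = 1` -/
def Te1S (n κ : ℕ) : Prop :=
    ∀ B : ℕ, 2 ≤ B → ∀ G : MvPolynomial (Fin 2) ℤ, Hyp0 n 1 G → (∀ m, |G.coeff m| + 1 ≤ (B : ℤ)) → ∀ H : ℕ, 1 ≤ H →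
    ((cnt 1 G H : ℝ) ≤ (B : ℝ) ^ κ * (H : ℝ) ^ (2 + 1 / ((n - 1 : ℕ) : ℝ))) ∧
    ((B : ℝ) ^ κ ≤ H → (H : ℝ) ^ (2 + 1 / ((n - 1 : ℕ) : ℝ)) ≤ (B : ℝ) ^ κ * (cnt 1 G H : ℝ)) ∧
    ∀ T : ℝ, 1 ≤ T → (bad 1 G H (T * (H : ℝ) ^ (1 / ((n - 1 : ℕ) : ℝ))) : ℝ) ≤
      (B : ℝ) ^ κ * (1 / T + T ^ 4 * (H : ℝ) ^ (-(1 / (4 * (n : ℝ) ^ 2)))) * (H : ℝ) ^ (2 + 1 / ((n - 1 : ℕ) : ℝ))

/-- a power of `H` against the logarithm -/
theorem pow_log {δ x : ℝ} (hδ : 0 < δ) (hx : 1 < x) : x ^ (-δ) ≤ 1 / δ * (1 / Real.log x) := by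
  have hx0 : 0 < x := by linarith
  have hl : 0 < Real.log x := Real.log_pos hx
  have h1 := Real.log_le_rpow_div hx0.le hδ
  have h2 : 0 < x ^ δ := Real.rpow_pos_of_pos hx0 δ
  rw [Real.rpow_neg hx0.le, ← one_div, one_div_mul_one_div]
  refine one_div_le_one_div_of_le (mul_pos hδ hl) ?_
  rw [le_div_iff₀ hδ] at h1
  linarith

theorem num1 (n : ℕ) (hn : 4 ≤ n) (x T : ℝ) (hx : 1 < x) (hT : 1 ≤ T) : ∃ T' : ℝ, 1 ≤ T' ∧ T' ≤ T ∧
    1 / T' + T' ^ 4 * x ^ (-(1 / (4 * (n : ℝ) ^ 2))) ≤ (1 + 40 * (n : ℝ) ^ 2) * (1 / T + 1 / Real.log x) := by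
  have hx0 : 0 < x := by linarith
  have hn0 : (0 : ℝ) < n := by exact_mod_cast (by omega : 0 < n)
  obtain ⟨δ, hδ⟩ : ∃ δ : ℝ, δ = 1 / (20 * (n : ℝ) ^ 2) := ⟨_, rfl⟩
  have hδ0 : 0 < δ := by rw [hδ]; positivity
  have hd4 : -(1 / (4 * (n : ℝ) ^ 2)) = -(5 * δ) := by rw [hδ]; field_simp; norm_num
  have hinv : 1 / δ = 20 * (n : ℝ) ^ 2 := by rw [hδ, one_div_one_div]
  have h1 := pow_log hδ0 hx
  have hl : 0 < Real.log x := Real.log_pos hx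
  have hy : 0 < x ^ δ := Real.rpow_pos_of_pos hx0 δ
  have hy1 : 1 ≤ x ^ δ := Real.one_le_rpow hx.le hδ0.le
  have hT0 : 0 < T := by linarith
  refine ⟨min T (x ^ δ), le_min hT hy1, min_le_left _ _, ?_⟩
  obtain ⟨u, hu⟩ : ∃ u : ℝ, u = min T (x ^ δ) := ⟨_, rfl⟩
  rw [← hu, hd4]
  have hu1 : 1 ≤ u := by rw [hu]; exact le_min hT hy1
  have huy : u ≤ x ^ δ := by rw [hu]; exact min_le_right _ _
  have e1 : 1 / u ≤ 1 / T + x ^ (-δ) := by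
    rw [Real.rpow_neg hx0.le, ← one_div]
    rcases min_choice T (x ^ δ) with h | h
    · rw [hu, h]
      have : 0 < 1 / x ^ δ := by positivity
      linarith
    · rw [hu, h]
      have : 0 < 1 / T := by positivity
      linarith
  have e2 : u ^ 4 * x ^ (-(5 * δ)) ≤ x ^ (-δ) := by
    have e3 : u ^ 4 ≤ x ^ (4 * δ) := by
      calc u ^ 4 ≤ (x ^ δ) ^ 4 := pow_le_pow_left₀ (by linarith) huy 4
        _ = x ^ (4 * δ) := by
          rw [← Real.rpow_natCast, ← Real.rpow_mul hx0.le]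
          congr 1
          push_cast
          ring
    calc u ^ 4 * x ^ (-(5 * δ)) ≤ x ^ (4 * δ) * x ^ (-(5 * δ)) := mul_le_mul_of_nonneg_right e3 (Real.rpow_nonneg hx0.le _)
      _ = x ^ (-δ) := by
        rw [← Real.rpow_add hx0]
        congr 1
        ring
  rw [hinv] at h1
  have hiT : 0 < 1 / T := by positivity
  have hil : 0 < 1 / Real.log x := by positivity
  have h5 : (1 + 40 * (n : ℝ) ^ 2) * (1 / T + 1 / Real.log x) = 1 / T + 40 * (n : ℝ) ^ 2 * (1 / T) + 1 / Real.log x +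
      2 * (20 * (n : ℝ) ^ 2 * (1 / Real.log x)) := by ring
  rw [h5]
  have h6 : 0 ≤ 40 * (n : ℝ) ^ 2 * (1 / T) := by positivity
  linarith

/-- `j = 1` -/
theorem eff1 (n κ : ℕ) (hn : 4 ≤ n) (h : Te1S n κ) : ∃ κ' : ℕ, EffS n 1 κ' := by
  obtain ⟨k, hk⟩ := pow_unbounded_of_one_lt (1 + 40 * (n : ℝ) ^ 2) (by norm_num : (1 : ℝ) < 2)
  refine ⟨2 * κ + k + 1, ?_⟩
  intro B hB G hG hGB H hH
  have hB2 : (2 : ℝ) ≤ B := by exact_mod_cast hB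
  have hB1 : (1 : ℝ) ≤ B := by linarith
  have hBH : (B : ℝ) ≤ H := by
    refine le_trans ?_ hH
    exact le_self_pow₀ hB1 (by omega)
  have hH2 : (2 : ℝ) ≤ H := hB2.trans hBH
  have hH1 : 1 ≤ H := by
    have : (1 : ℝ) ≤ H := by linarith
    exact_mod_cast this
  have hBk : (B : ℝ) ^ κ ≤ H := le_trans (pow_le_pow_right₀ hB1 (by omega)) hH
  obtain ⟨h1, h2, h3⟩ := h B hB G hG hGB H hH1
  have h2 := h2 hBk
  have hE : Eh n 1 H = (H : ℝ) ^ (2 + 1 / ((n - 1 : ℕ) : ℝ)) := by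
    unfold Eh
    rw [if_pos rfl]
  have hsz : sz n 1 H = (H : ℝ) ^ (1 / ((n - 1 : ℕ) : ℝ)) := by
    unfold sz
    rw [if_pos rfl]
  rw [hE, hsz]
  obtain ⟨E, hEd⟩ : ∃ E : ℝ, E = (H : ℝ) ^ (2 + 1 / ((n - 1 : ℕ) : ℝ)) := ⟨_, rfl⟩
  have hE0 : 0 ≤ E := by rw [hEd]; positivity
  have hc0 : (0 : ℝ) ≤ (cnt 1 G H : ℝ) := Nat.cast_nonneg _
  rw [← hEd] at h1 h2 ⊢
  have hmon : (B : ℝ) ^ κ ≤ (B : ℝ) ^ (2 * κ + k + 1) := pow_le_pow_right₀ hB1 (by omega)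
  refine ⟨h2.trans (mul_le_mul_of_nonneg_right hmon hc0), h1.trans (mul_le_mul_of_nonneg_right hmon hE0), fun T hT => ?_⟩
  have hT1 : (1 : ℝ) ≤ T := by exact_mod_cast hT
  have hl : 0 < Real.log H := Real.log_pos (by linarith)
  obtain ⟨T', hT'1, hT'T, hT'⟩ := num1 n hn H T (by linarith) hT1
  have hS0 : 0 ≤ (H : ℝ) ^ (1 / ((n - 1 : ℕ) : ℝ)) := by positivity
  have h4 : (bad 1 G H ((T : ℝ) * (H : ℝ) ^ (1 / ((n - 1 : ℕ) : ℝ))) : ℝ) ≤ (bad 1 G H (T' * (H : ℝ) ^ (1 / ((n - 1 : ℕ) : ℝ))) : ℝ) := by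
    exact_mod_cast bad_mono 1 G H (mul_le_mul_of_nonneg_right hT'T hS0)
  have h5 := h3 T' hT'1
  rw [← hEd] at h5
  refine h4.trans (h5.trans ?_)
  obtain ⟨w, hw⟩ : ∃ w : ℝ, w = 1 / (T : ℝ) + 1 / Real.log H := ⟨_, rfl⟩
  rw [← hw] at hT' ⊢
  have hw0 : 0 ≤ w := by rw [hw]; positivity
  have h2k : (2 : ℝ) ^ k ≤ (B : ℝ) ^ k := pow_le_pow_left₀ (by norm_num) hB2 k
  calc (B : ℝ) ^ κ * (1 / T' + T' ^ 4 * (H : ℝ) ^ (-(1 / (4 * (n : ℝ) ^ 2)))) * E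
      ≤ (B : ℝ) ^ κ * ((B : ℝ) ^ k * w) * ((B : ℝ) ^ κ * (cnt 1 G H : ℝ)) := by
        refine mul_le_mul (mul_le_mul_of_nonneg_left ?_ (by positivity)) h2 hE0 (by positivity)
        exact hT'.trans (mul_le_mul_of_nonneg_right (hk.le.trans h2k) hw0)
    _ = (B : ℝ) ^ (2 * κ + k) * w * (cnt 1 G H : ℝ) := by ring
    _ ≤ (B : ℝ) ^ (2 * κ + k + 1) * w * (cnt 1 G H : ℝ) := by
        refine mul_le_mul_of_nonneg_right (mul_le_mul_of_nonneg_right (pow_le_pow_right₀ hB1 (by omega)) hw0) hc0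

/-- `j = 2` -/
theorem eff2 (n κb κm κu κl : ℕ) (hn : 4 ≤ n) (hb : BgxS n κb) (hm : Mo2S κm) (hu : UqxS n κu) (hl : LoxS n κl) :
    ∃ κ : ℕ, EffS n 2 κ := by
  obtain ⟨κc, hc⟩ := cnt2 n κb κm hn hb hm
  obtain ⟨κo, ho⟩ := loc2 n κb κm κu hn hb hm hu
  refine ⟨κl + κc + κo + 1, ?_⟩
  intro B hB G hG hGB H hH
  have hB2 : (2 : ℝ) ≤ B := by exact_mod_cast hB
  have hB1 : (1 : ℝ) ≤ B := by linarith
  have hBH : (B : ℝ) ≤ H := by
    refine le_trans ?_ hH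
    exact le_self_pow₀ hB1 (by omega)
  have hH2 : 2 ≤ H := by
    have : (2 : ℝ) ≤ H := hB2.trans hBH
    exact_mod_cast this
  have hH1r : (1 : ℝ) < H := by linarith
  have hlg : 0 < Real.log H := Real.log_pos hH1r
  have h1 := hl B hB G hG.deg hGB H (le_trans (pow_le_pow_right₀ hB1 (by omega)) hH)
  have h2 := hc B hB G hG hGB H hH2
  have hE : Eh n 2 H = (H : ℝ) ^ 5 * Real.log H := by
    unfold Eh
    rw [if_neg (by norm_num), if_pos rfl]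
  obtain ⟨E, hEd⟩ : ∃ E : ℝ, E = (H : ℝ) ^ 5 * Real.log H := ⟨_, rfl⟩
  have hE0 : 0 ≤ E := by rw [hEd]; positivity
  have hc0 : (0 : ℝ) ≤ (cnt 2 G H : ℝ) := Nat.cast_nonneg _
  rw [← hEd] at h1 h2
  rw [hE, ← hEd]
  refine ⟨h1.trans (mul_le_mul_of_nonneg_right (pow_le_pow_right₀ hB1 (by omega)) hc0),
    h2.trans (mul_le_mul_of_nonneg_right (pow_le_pow_right₀ hB1 (by omega)) hE0), fun T hT => ?_⟩
  have h3 := ho B hB G hG hGB H T hH2 hT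
  rw [hE, ← hEd] at h3
  refine h3.trans ?_
  obtain ⟨w, hw⟩ : ∃ w : ℝ, w = 1 / (T : ℝ) + 1 / Real.log H := ⟨_, rfl⟩
  rw [← hw]
  have hw0 : 0 ≤ w := by rw [hw]; positivity
  calc (B : ℝ) ^ κo * w * E ≤ (B : ℝ) ^ κo * w * ((B : ℝ) ^ κl * (cnt 2 G H : ℝ)) := mul_le_mul_of_nonneg_left h1 (by positivity)
    _ = (B : ℝ) ^ (κl + κo) * w * (cnt 2 G H : ℝ) := by rw [pow_add]; ring
    _ ≤ (B : ℝ) ^ (κl + κc + κo + 1) * w * (cnt 2 G H : ℝ) :=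
        mul_le_mul_of_nonneg_right (mul_le_mul_of_nonneg_right (pow_le_pow_right₀ hB1 (by omega)) hw0) hc0

/-- bad members: two points, or a point outside the box of radius `T` -/
theorem bad_two (j : ℕ) (G : MvPolynomial (Fin 2) ℤ) (H T : ℕ) : (bad j G H (T : ℝ) : ℝ) ≤
    ((Set.ncard {L : MvPolynomial (Fin 2) ℤ | L.totalDegree ≤ j ∧ (∀ m, |L.coeff m| ≤ (H : ℤ)) ∧
      ∃ P Q : Fin 2 → ℤ, P ≠ Q ∧ eval P (G + L) = 0 ∧ eval Q (G + L) = 0} : ℕ) : ℝ) +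
    ((Set.ncard {L : MvPolynomial (Fin 2) ℤ | L.totalDegree ≤ j ∧ (∀ m, |L.coeff m| ≤ (H : ℤ)) ∧
      ∃ P : Fin 2 → ℤ, (T : ℤ) < max |P 0| |P 1| ∧ eval P (G + L) = 0} : ℕ) : ℝ) := by
  classical
  obtain ⟨Z, hZ⟩ : ∃ Z : Finset (Ix j → ℤ), Z = (box j H).filter fun c =>
    (∃ P : Fin 2 → ℤ, eval P (G + pol c) = 0) ∧ ¬ One G (pol c) T := ⟨_, rfl⟩
  obtain ⟨Z2, hZ2⟩ : ∃ Z2 : Finset (Ix j → ℤ), Z2 = (box j H).filter fun c =>
    ∃ P Q : Fin 2 → ℤ, P ≠ Q ∧ eval P (G + pol c) = 0 ∧ eval Q (G + pol c) = 0 := ⟨_, rfl⟩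
  obtain ⟨Z3, hZ3⟩ : ∃ Z3 : Finset (Ix j → ℤ), Z3 = (box j H).filter fun c =>
    ∃ P : Fin 2 → ℤ, (T : ℤ) < max |P 0| |P 1| ∧ eval P (G + pol c) = 0 := ⟨_, rfl⟩
  rw [ncard_filter j H (fun L => ∃ P Q : Fin 2 → ℤ, P ≠ Q ∧ eval P (G + L) = 0 ∧ eval Q (G + L) = 0) Z2
    (fun c => by rw [hZ2, Finset.mem_filter])]
  rw [ncard_filter j H (fun L => ∃ P : Fin 2 → ℤ, (T : ℤ) < max |P 0| |P 1| ∧ eval P (G + L) = 0) Z3
    (fun c => by rw [hZ3, Finset.mem_filter])]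
  rw [bad_fin j G H (T : ℝ) Z (fun c => by rw [hZ, Finset.mem_filter])]
  have hsub : Z ⊆ Z2 ∪ Z3 := by
    intro c hc
    rw [hZ, Finset.mem_filter] at hc
    obtain ⟨hbx, ⟨P, hP⟩, hnot⟩ := hc
    rw [Finset.mem_union, hZ2, hZ3, Finset.mem_filter, Finset.mem_filter]
    by_cases hbig : ∃ P : Fin 2 → ℤ, (T : ℤ) < max |P 0| |P 1| ∧ eval P (G + pol c) = 0
    · exact Or.inr ⟨hbx, hbig⟩
    · push Not at hbig
      refine Or.inl ⟨hbx, ?_⟩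
      have hsm : ∀ i, |(P i : ℝ)| ≤ (T : ℝ) := by
        intro i
        have h4 : max |P 0| |P 1| ≤ (T : ℤ) := by
          by_contra hcon
          push Not at hcon
          exact hbig P hcon hP
        have h5 := max_le_iff.1 h4
        fin_cases i
        · exact_mod_cast h5.1
        · exact_mod_cast h5.2
      have hex : ∃ Q : Fin 2 → ℤ, eval Q (G + pol c) = 0 ∧ Q ≠ P := by
        by_contra hcon
        push Not at hcon
        exact hnot ⟨P, hP, hsm, hcon⟩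
      obtain ⟨Q, hQ, hne⟩ := hex
      exact ⟨P, Q, fun h => hne h.symm, hP, hQ⟩
  exact_mod_cast (Finset.card_le_card hsub).trans (Finset.card_union_le _ _)

/-- `j ≥ 3`, one `G` -/
theorem eff3g (n j : ℕ) (hn : 4 ≤ n) (hj : 3 ≤ j) : ∃ C : ℝ, 1 ≤ C ∧ ∀ (G : MvPolynomial (Fin 2) ℤ) (W V : ℝ),
    Pool.Agent.H88.TU.Cou n j G W → |((eval (0 : Fin 2 → ℤ) G : ℤ) : ℝ)| ≤ V → Eff n j G (C * (1 + |W| + V)) := by
  obtain ⟨N, hN⟩ : ∃ N : ℕ, N = (j + 1) * (j + 2) / 2 - 1 := ⟨_, rfl⟩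
  have hκ := kaps_pos j hj
  refine ⟨3 ^ N * (2 + kaps j + (4 * n + 9)), ?_, ?_⟩
  · have h1 : (1 : ℝ) ≤ 3 ^ N := one_le_pow₀ (by norm_num)
    have h2 : (0 : ℝ) ≤ n := Nat.cast_nonneg n
    nlinarith
  intro G W V hW hV H hH
  have hV0 : 0 ≤ V := (abs_nonneg _).trans hV
  have hn0 : (0 : ℝ) ≤ n := Nat.cast_nonneg n
  obtain ⟨q, hq⟩ : ∃ q : ℝ, q = (3 : ℝ) ^ N := ⟨_, rfl⟩
  have hq1 : 1 ≤ q := by rw [hq]; exact one_le_pow₀ (by norm_num)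
  rw [← hq] at hH ⊢
  have hab : 0 ≤ |W| := abs_nonneg W
  obtain ⟨Z, hZ⟩ : ∃ Z : ℝ, Z = q * (2 + kaps j + (4 * n + 9)) * (1 + |W| + V) := ⟨_, rfl⟩
  rw [← hZ] at hH ⊢
  -- lower bounds for `Z`
  have hY1 : 1 ≤ 1 + |W| + V := by linarith
  have hZ1 : 2 + V ≤ Z := by
    have e1 : 2 * 1 ≤ (q * (2 + kaps j + (4 * n + 9))) := by nlinarith
    have e2 : 2 * (1 + |W| + V) ≤ Z := by
      rw [hZ]
      exact mul_le_mul_of_nonneg_right (by linarith) (by linarith)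
    linarith
  have hZ2 : q ≤ Z := by
    rw [hZ, mul_assoc]
    refine le_mul_of_one_le_right (by linarith) ?_
    nlinarith
  have hZ3 : kaps j + |W| ≤ Z := by
    have e1 : kaps j + |W| ≤ (2 + kaps j + (4 * n + 9)) * (1 + |W| + V) := by
      have e2 : 0 ≤ kaps j * (|W| + V) := by positivity
      have e3 : 0 ≤ (2 + (4 * (n : ℝ) + 9)) * (1 + |W| + V) - |W| := by nlinarith
      nlinarith
    rw [hZ, mul_assoc]
    refine e1.trans (le_mul_of_one_le_left (by positivity) hq1)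
  have hZ4 : q * ((4 * n + 9) * |W|) ≤ Z := by
    rw [hZ, mul_assoc]
    refine mul_le_mul_of_nonneg_left ?_ (by linarith)
    refine mul_le_mul (by linarith) (by linarith) hab (by positivity)
  have hH2 : (2 : ℝ) ≤ H := by linarith
  have hH1r : (1 : ℝ) < H := by linarith
  have hH0 : (0 : ℝ) < H := by linarith
  have hH1 : 1 ≤ H := by exact_mod_cast hH1r.le
  have hlg : 0 < Real.log H := Real.log_pos hH1r
  have hE : Eh n j H = (2 * (H : ℝ) + 1) ^ N := by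
    unfold Eh
    rw [if_neg (by omega), if_neg (by omega), hN]
  have hsz : sz n j H = 1 := by
    unfold sz
    rw [if_neg (by omega), if_neg (by omega)]
  rw [hE, hsz]
  obtain ⟨E, hEd⟩ : ∃ E : ℝ, E = (2 * (H : ℝ) + 1) ^ N := ⟨_, rfl⟩
  have hE0 : 0 ≤ E := by rw [hEd]; positivity
  rw [← hEd]
  obtain ⟨c, hc⟩ : ∃ c : ℝ, c = (cnt j G H : ℝ) := ⟨_, rfl⟩
  have hc0 : 0 ≤ c := by rw [hc]; exact Nat.cast_nonneg _
  have hlo : E ≤ q * c := by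
    have h1 := lo3 j G H (by
      have h2 : |((eval (0 : Fin 2 → ℤ) G : ℤ) : ℝ)| ≤ (H : ℝ) := by linarith
      exact_mod_cast h2)
    rw [← hN] at h1
    rw [hEd, hq, hc]
    calc (2 * (H : ℝ) + 1) ^ N ≤ (3 * H) ^ N := pow_le_pow_left₀ (by positivity) (by linarith) _
      _ = 3 ^ N * (H : ℝ) ^ N := mul_pow _ _ _
      _ ≤ 3 ^ N * (cnt j G H : ℝ) := mul_le_mul_of_nonneg_left h1 (by positivity)
  obtain ⟨g1, g2, g3⟩ := hW H hH1
  obtain ⟨u, hu⟩ : ∃ u : ℝ, u = (H : ℝ) ^ (-(1 / (2 * (n : ℝ) + 4))) := ⟨_, rfl⟩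
  rw [← hN, ← hu, ← hEd] at g1 g2
  have hu0 : 0 ≤ u := by rw [hu]; positivity
  have hu1 : u ≤ 1 := by
    rw [hu]
    exact Real.rpow_le_one_of_one_le_of_nonpos hH1r.le (by
      have : 0 ≤ 1 / (2 * (n : ℝ) + 4) := by positivity
      linarith)
  have hul : u ≤ (2 * n + 4) * (1 / Real.log H) := by
    have h1 := pow_log (δ := 1 / (2 * (n : ℝ) + 4)) (by positivity) hH1r
    rw [one_div_one_div] at h1
    rw [hu]
    exact h1
  rw [← hc]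
  refine ⟨hlo.trans (mul_le_mul_of_nonneg_right hZ2 hc0), ?_, fun T hT => ?_⟩
  · have h1 : c - kaps j * E ≤ W * u * E := (le_abs_self _).trans (by rw [hc]; exact g1)
    have h2 : W * u * E ≤ |W| * E := by
      refine mul_le_mul_of_nonneg_right ?_ hE0
      calc W * u ≤ |W| * u := mul_le_mul_of_nonneg_right (le_abs_self W) hu0
        _ ≤ |W| * 1 := mul_le_mul_of_nonneg_left hu1 hab
        _ = |W| := mul_one _
    calc c ≤ (kaps j + |W|) * E := by linarith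
      _ ≤ Z * E := mul_le_mul_of_nonneg_right hZ3 hE0
  · have g3 := g3 T hT
    rw [← hN, ← hu, ← hEd] at g3
    have hT1 : (1 : ℝ) ≤ T := by exact_mod_cast hT
    have hT0 : (0 : ℝ) < T := by linarith
    rw [mul_one]
    have h1 := bad_two j G H T
    obtain ⟨w, hw⟩ : ∃ w : ℝ, w = 1 / (T : ℝ) + 1 / Real.log H := ⟨_, rfl⟩
    rw [← hw]
    have hiT : 0 < 1 / (T : ℝ) := by positivity
    have hil : 0 < 1 / Real.log H := by positivity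
    have hw0 : 0 ≤ w := by rw [hw]; linarith
    have h2 : 1 / (T : ℝ) ^ (j - 2) ≤ 1 / (T : ℝ) := by
      refine one_div_le_one_div_of_le hT0 ?_
      exact le_self_pow₀ hT1 (by omega)
    have h3 : W * u * E ≤ |W| * ((2 * n + 4) * w) * E := by
      refine mul_le_mul_of_nonneg_right ?_ hE0
      refine (mul_le_mul_of_nonneg_right (le_abs_self W) hu0).trans (mul_le_mul_of_nonneg_left ?_ hab)
      refine hul.trans (mul_le_mul_of_nonneg_left (by rw [hw]; linarith) (by positivity))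
    have h4 : W * (1 / (T : ℝ) ^ (j - 2) + u) * E ≤ |W| * ((2 * n + 5) * w) * E := by
      refine mul_le_mul_of_nonneg_right ?_ hE0
      have h5 : 0 ≤ 1 / (T : ℝ) ^ (j - 2) + u := by positivity
      refine (mul_le_mul_of_nonneg_right (le_abs_self W) h5).trans (mul_le_mul_of_nonneg_left ?_ hab)
      have h6 : (2 * (n : ℝ) + 4) * (1 / Real.log H) ≤ (2 * n + 4) * w := mul_le_mul_of_nonneg_left (by rw [hw]; linarith) (by positivity)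
      have h7 : 1 / (T : ℝ) ≤ w := by rw [hw]; linarith
      have h8 : (2 * (n : ℝ) + 5) * w = w + (2 * n + 4) * w := by ring
      rw [h8]
      linarith
    calc (bad j G H (T : ℝ) : ℝ) ≤ W * u * E + W * (1 / (T : ℝ) ^ (j - 2) + u) * E := h1.trans (add_le_add g2 g3)
      _ ≤ |W| * ((2 * n + 4) * w) * E + |W| * ((2 * n + 5) * w) * E := add_le_add h3 h4
      _ = ((4 * n + 9) * |W|) * w * E := by ring
      _ ≤ ((4 * n + 9) * |W|) * w * (q * c) := mul_le_mul_of_nonneg_left hlo (by positivity)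
      _ = (q * ((4 * n + 9) * |W|)) * (w * c) := by ring
      _ ≤ Z * (w * c) := mul_le_mul_of_nonneg_right hZ4 (by positivity)
      _ = Z * w * c := by ring

end Pool.Agent.H88.TX
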