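import Pool.Agent.H88.TX.Eff
import Pool.Agent.H88.TF.Fin

/-! # [H88 TX FIN] The effective statement for every stratum, from the modules -/

namespace Pool.Agent.H88.TX

open Finset MvPolynomial Pool.Agent.H8.AA Pool.Agent.H88.A2 Pool.Agent.H88.TS Pool.Agent.H82.TO Pool.Agent.H15.SC

theorem EffS.mono {n j κ κ' : ℕ} (h : EffS n j κ) (hκ : κ ≤ κ') : EffS n j κ' := by
  intro B hB G hG hGB
  have hB2 : (2 : ℝ) ≤ B := by exact_mod_cast hB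
  have hB1 : (1 : ℝ) ≤ B := by linarith
  exact (h B hB G hG hGB).mono (one_le_pow₀ hB1) (pow_le_pow_right₀ hB1 hκ)

theorem cou_nonneg {n j : ℕ} {G : MvPolynomial (Fin 2) ℤ} {W : ℝ} (h : Pool.Agent.H88.TU.Cou n j G W) : 0 ≤ W := by
  obtain ⟨_, h2, _⟩ := h 1 (le_refl _)
  have h3 : (0 : ℝ) ≤ W * ((1 : ℕ) : ℝ) ^ (-(1 / (2 * (n : ℝ) + 4))) * (2 * ((1 : ℕ) : ℝ) + 1) ^ ((j + 1) * (j + 2) / 2 - 1) :=
    le_trans (Nat.cast_nonneg _) h2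
  rw [Nat.cast_one, Real.one_rpow, mul_one] at h3
  by_contra hc
  push Not at hc
  have h4 : (0 : ℝ) < (2 * 1 + 1) ^ ((j + 1) * (j + 2) / 2 - 1) := by positivity
  have h5 := mul_neg_of_neg_of_pos hc h4
  linarith

/-- the value at the origin -/
theorem val_zero (G : MvPolynomial (Fin 2) ℤ) (B : ℕ) (hGB : ∀ m, |G.coeff m| + 1 ≤ (B : ℤ)) :
    |((eval (0 : Fin 2 → ℤ) G : ℤ) : ℝ)| ≤ B := by
  have h1 : eval (0 : Fin 2 → ℤ) G = G.coeff 0 := by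
    rw [← constantCoeff_eq]
    simp [eval_zero]
  have h2 := hGB 0
  rw [h1]
  have h3 : |G.coeff 0| ≤ (B : ℤ) := by linarith
  exact_mod_cast h3

/-- `j ≥ 3`, `n ≥ 5` -/
theorem eff3 (n j : ℕ) (hn : 5 ≤ n) (hj : 3 ≤ j) (hjn : j < n) : ∃ κ : ℕ, EffS n j κ := by
  obtain ⟨C, hC, h⟩ := eff3g n j (by omega) hj
  obtain ⟨k, hk⟩ := pow_unbounded_of_one_lt (3 * C) (by norm_num : (1 : ℝ) < 2)
  refine ⟨k + (n ^ 16 + 1), ?_⟩
  intro B hB G hG hGB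
  have hB2 : (2 : ℝ) ≤ B := by exact_mod_cast hB
  have hB1 : (1 : ℝ) ≤ B := by linarith
  obtain ⟨W, hW, hC2⟩ := Pool.Agent.H88.TF.wcf n j G (by omega) hj hjn hG.deg hG.irr
  have hW1 := hW hn B hB fun m => by
    have := hGB m
    omega
  have hW0 := cou_nonneg hC2
  have hV := val_zero G B hGB
  have h1 := h G W B hC2 hV
  rw [abs_of_nonneg hW0] at h1
  refine h1.mono ?_ ?_
  · have : 1 ≤ 1 + W + (B : ℝ) := by linarith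
    nlinarith
  · have h2 : (1 : ℝ) ≤ (B : ℝ) ^ (n ^ 16 + 1) := one_le_pow₀ hB1
    have h3 : (B : ℝ) ≤ (B : ℝ) ^ (n ^ 16 + 1) := le_self_pow₀ hB1 (by omega)
    have h4 : W ≤ (B : ℝ) ^ (n ^ 16 + 1) := hW1.trans (pow_le_pow_right₀ hB1 (by omega))
    have h2k : (2 : ℝ) ^ k ≤ (B : ℝ) ^ k := pow_le_pow_left₀ (by norm_num) hB2 k
    calc C * (1 + W + B) ≤ C * (3 * (B : ℝ) ^ (n ^ 16 + 1)) := mul_le_mul_of_nonneg_left (by linarith) (by linarith)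
      _ = (3 * C) * (B : ℝ) ^ (n ^ 16 + 1) := by ring
      _ ≤ (B : ℝ) ^ k * (B : ℝ) ^ (n ^ 16 + 1) := mul_le_mul_of_nonneg_right (hk.le.trans h2k) (by positivity)
      _ = (B : ℝ) ^ (k + (n ^ 16 + 1)) := (pow_add _ _ _).symm

theorem finx (h1 : ∀ n, 4 ≤ n → ∃ κ, Te1S n κ) (h2 : ∀ n, 4 ≤ n → ∃ κ, EffS n 2 κ) : ∃ κ : ℕ → ℕ, ∀ (n j : ℕ) (G : MvPolynomial (Fin 2) ℤ),
    Hyp0 n j G → ∃ W : ℝ, 2 ≤ W ∧ ((5 ≤ n ∨ j ≤ 2) → ∀ B : ℕ, 2 ≤ B → (∀ m, |G.coeff m| < (B : ℤ)) → W ≤ (B : ℝ) ^ κ n) ∧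
      Eff n j G W := by
  classical
  have hall : ∀ n j : ℕ, ∃ κ : ℕ, 4 ≤ n → 1 ≤ j → j < n → (5 ≤ n ∨ j ≤ 2) → EffS n j κ := by
    intro n j
    by_cases hn : 4 ≤ n ∧ 1 ≤ j ∧ j < n ∧ (5 ≤ n ∨ j ≤ 2)
    · obtain ⟨g1, g2, g3, g4⟩ := hn
      by_cases hj1 : j = 1
      · subst hj1
        obtain ⟨κ, hκ⟩ := h1 n g1
        obtain ⟨κ', hκ'⟩ := eff1 n κ g1 hκ
        exact ⟨κ', fun _ _ _ _ => hκ'⟩
      · by_cases hj2 : j = 2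
        · subst hj2
          obtain ⟨κ, hκ⟩ := h2 n g1
          exact ⟨κ, fun _ _ _ _ => hκ⟩
        · obtain ⟨κ, hκ⟩ := eff3 n j (by omega) (by omega) g3
          exact ⟨κ, fun _ _ _ _ => hκ⟩
    · exact ⟨0, fun a b c d => absurd ⟨a, b, c, d⟩ hn⟩
  choose q hq using hall
  refine ⟨fun n => 1 + ∑ j ∈ range n, q n j, ?_⟩
  intro n j G hG
  by_cases hc : 5 ≤ n ∨ j ≤ 2
  · have hE := (hq n j hG.hn hG.hj hG.hjn hc).mono (κ' := 1 + ∑ j ∈ range n, q n j) (by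
      have := Finset.single_le_sum (f := q n) (fun _ _ => Nat.zero_le _) (mem_range.2 hG.hjn)
      omega)
    have hex := Pool.Agent.H88.A2.exists_bound G
    obtain ⟨B0, hB0⟩ : ∃ B0 : ℕ, B0 = Nat.find hex := ⟨_, rfl⟩
    have hs : 2 ≤ B0 ∧ ∀ m, |G.coeff m| + 1 ≤ (B0 : ℤ) := by rw [hB0]; exact Nat.find_spec hex
    have hB2 : (2 : ℝ) ≤ B0 := by exact_mod_cast hs.1
    refine ⟨(B0 : ℝ) ^ (1 + ∑ j ∈ range n, q n j), ?_, ?_, hE B0 hs.1 G hG hs.2⟩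
    · exact hB2.trans (le_self_pow₀ (by linarith) (by omega))
    · intro _ B hB hGB
      have h3 : B0 ≤ B := by
        rw [hB0]
        exact Nat.find_min' hex ⟨hB, fun m => by have := hGB m; omega⟩
      exact pow_le_pow_left₀ (by linarith) (by exact_mod_cast h3) _
  · have hn := hG.hn
    have hj : 3 ≤ j := by omega
    obtain ⟨C, hC, h⟩ := eff3g n j hn hj
    obtain ⟨W, _, hC2⟩ := Pool.Agent.H88.TF.wcf n j G hn hj hG.hjn hG.deg hG.irr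
    have h3 := h G W _ hC2 (le_refl _)
    have ha : 0 ≤ |W| := abs_nonneg W
    have hb : 0 ≤ |((eval (0 : Fin 2 → ℤ) G : ℤ) : ℝ)| := abs_nonneg _
    have h4 : 1 ≤ C * (1 + |W| + |((eval (0 : Fin 2 → ℤ) G : ℤ) : ℝ)|) := by nlinarith
    refine ⟨C * (1 + |W| + |((eval (0 : Fin 2 → ℤ) G : ℤ) : ℝ)|) + 2, by linarith, fun h5 => absurd h5 hc, ?_⟩
    exact h3.mono h4 (by linarith)

end Pool.Agent.H88.TX
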