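import Pool.Agent.H88.TS.Dig
import Pool.Agent.H82.TO.Uq

/-! # [H88 TX MO2] `j = 2`: the number of vectors with a zero in the box `|x|, |y| ≤ R` (first moment, absolute constant)

The value at the point `(x, y)` is prescribed: `ev 2 (co c) x y = v x y`. For `P = (x, y) ≠ 0`, `m = max(|x|, |y|)`: at most `C (H/m + 1)² (2H+1)^3` vectors
(`Pool.Agent.H88.TS.dig 2`, absolute constant `C`; `card (Ix 2) - 3 = 3`). For `P = 0`: the constant coefficient is prescribed, at most `(2H+1)^5 ≤ 9 H² (2H+1)^3`.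
There are `8 m` points with `max = m`: `∑_(m ≤ R) 8 m C · 2 (H²/m² + 1) (2H+1)^3 ≤ 16 C (2H+1)^3 (H² (1 + log R) + R²)` (`∑_(m ≤ R) 1/m ≤ 1 + log R`,
`∑_(m ≤ R) m ≤ R²`). Look at H82/TO (Uq1, Up1, As10: `mx`, `bp`, `inv_sum`, `pairs1`) and H82/A3/Asm.lean `small_le` for the same sums in the kernel. -/

namespace Pool.Agent.H88.TX

open Finset Pool.Agent.H8.AA Pool.Agent.H88.A2

/-- MO2: the number of vectors with a zero in a box -/
def Mo2S (κ : ℕ) : Prop :=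
    ∀ (H R : ℕ), 1 ≤ H → 1 ≤ R → ∀ (v : ℤ → ℤ → ℤ) (T : Finset (Ix 2 → ℤ)),
    (∀ c ∈ T, (∀ p, |c p| ≤ (H : ℤ)) ∧ ∃ x y : ℤ, |x| ≤ (R : ℤ) ∧ |y| ≤ (R : ℤ) ∧ ev 2 (co c) x y = v x y) →
    (T.card : ℝ) ≤ κ * ((2 * (H : ℝ) + 1) ^ 3 * ((H : ℝ) ^ 2 * (1 + Real.log R) + (R : ℝ) ^ 2))

theorem mo2 : ∃ κ : ℕ, Mo2S κ := by
  classical
  obtain ⟨C1, hC1, h1⟩ := Pool.Agent.H88.A2.sml2 2 (by norm_num) 1 (le_refl _)
  obtain ⟨C, hC, h2⟩ := Pool.Agent.H88.TS.dig 2 (by norm_num)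
  have hcard : Fintype.card (Ix 2) = 6 := by rw [card_ix]
  rw [hcard] at h1 h2
  refine ⟨⌈9 * C1 + 36 * C⌉₊, ?_⟩
  intro H R hH hR v T hT
  have hHr : (1 : ℝ) ≤ (H : ℝ) := by exact_mod_cast hH
  have hRr : (1 : ℝ) ≤ (R : ℝ) := by exact_mod_cast hR
  have hlR : 0 ≤ Real.log R := Real.log_nonneg hRr
  obtain ⟨W, hW⟩ : ∃ W : ℝ, W = (2 * (H : ℝ) + 1) ^ 3 := ⟨_, rfl⟩
  have hW0 : 0 ≤ W := by rw [hW]; positivity
  rw [← hW]
  obtain ⟨T1, hT1⟩ : ∃ T1 : Finset (Ix 2 → ℤ), T1 = T.filter fun c =>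
    ∃ x y : ℤ, |x| ≤ ((min R H : ℕ) : ℤ) ∧ |y| ≤ ((min R H : ℕ) : ℤ) ∧ ev 2 (co c) x y = v x y := ⟨_, rfl⟩
  obtain ⟨B, hB⟩ : ∃ B : Finset (ℤ × ℤ), B = (Pool.Agent.H82.TO.bp R).filter fun P => (H : ℤ) < |P.1| ∨ (H : ℤ) < |P.2| := ⟨_, rfl⟩
  obtain ⟨F, hF⟩ : ∃ F : ℤ × ℤ → Finset (Ix 2 → ℤ), F = fun P => T.filter fun c => ev 2 (co c) P.1 P.2 = v P.1 P.2 := ⟨_, rfl⟩
  have hsub : T ⊆ T1 ∪ B.biUnion F := by
    intro c hc
    obtain ⟨-, x, y, hx, hy, hv⟩ := hT c hc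
    rw [Finset.mem_union]
    by_cases hbig : (H : ℤ) < |x| ∨ (H : ℤ) < |y|
    · right
      rw [Finset.mem_biUnion]
      refine ⟨(x, y), ?_, ?_⟩
      · rw [hB, Finset.mem_filter, Pool.Agent.H82.TO.mem_bp]
        exact ⟨⟨hx, hy⟩, hbig⟩
      · rw [hF]
        exact Finset.mem_filter.2 ⟨hc, hv⟩
    · left
      push Not at hbig
      rw [hT1, Finset.mem_filter]
      refine ⟨hc, x, y, ?_, ?_, hv⟩
      · rw [Nat.cast_min]
        exact le_min hx hbig.1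
      · rw [Nat.cast_min]
        exact le_min hy hbig.2
  have hc0 : (T.card : ℝ) ≤ (T1.card : ℝ) + ((B.biUnion F).card : ℝ) := by
    exact_mod_cast (Finset.card_le_card hsub).trans (Finset.card_union_le _ _)
  -- the points of size at most H
  have hS1 : (1 : ℝ) ≤ ((min R H : ℕ) : ℝ) := by exact_mod_cast le_min hR hH
  have hSH : ((min R H : ℕ) : ℝ) ≤ H := by exact_mod_cast min_le_right R H
  have hSR : ((min R H : ℕ) : ℝ) ≤ R := by exact_mod_cast min_le_left R H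
  have e1 := h1 H ((min R H : ℕ) : ℝ) hH hS1 hSH (fun x y => - v x y) T1 (by
    intro c hc
    rw [hT1, Finset.mem_filter] at hc
    obtain ⟨hc, x, y, hx, hy, hv⟩ := hc
    refine ⟨(hT c hc).1, x, y, ?_, ?_⟩
    · rw [one_mul]
      exact max_le (by exact_mod_cast hx) (by exact_mod_cast hy)
    · rw [hv]
      ring)
  rw [if_neg (by norm_num)] at e1
  have e2 : (T1.card : ℝ) ≤ 9 * C1 * (W * ((H : ℝ) ^ 2 * (1 + Real.log R))) := by
    have g1 : (2 * (H : ℝ) + 1) ^ (6 - 1) ≤ 9 * (H : ℝ) ^ 2 * W := by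
      have g2 : (2 * (H : ℝ) + 1) ^ (6 - 1) = (2 * (H : ℝ) + 1) ^ 2 * W := by
        rw [hW]
        ring
      rw [g2]
      exact mul_le_mul_of_nonneg_right (by nlinarith) hW0
    have g3 : Real.log ((min R H : ℕ) : ℝ) ≤ Real.log R := Real.log_le_log (by linarith) hSR
    have g4 : 0 ≤ Real.log ((min R H : ℕ) : ℝ) := Real.log_nonneg hS1
    calc (T1.card : ℝ) ≤ C1 * (2 * (H : ℝ) + 1) ^ (6 - 1) * (1 + Real.log ((min R H : ℕ) : ℝ)) := e1
      _ ≤ C1 * (9 * (H : ℝ) ^ 2 * W) * (1 + Real.log R) :=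
          mul_le_mul (mul_le_mul_of_nonneg_left g1 hC1) (by linarith) (by linarith) (by positivity)
      _ = _ := by ring
  -- the points of size larger than H
  have e3 : ((B.biUnion F).card : ℝ) ≤ 36 * C * (W * (R : ℝ) ^ 2) := by
    have g1 : ((B.biUnion F).card : ℝ) ≤ ∑ P ∈ B, ((F P).card : ℝ) := by exact_mod_cast Finset.card_biUnion_le
    have g2 : ∀ P ∈ B, ((F P).card : ℝ) ≤ 4 * C * W := by
      intro P hP
      rw [hB, Finset.mem_filter] at hP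
      have hne : P.1 ≠ 0 ∨ P.2 ≠ 0 := by
        rcases hP.2 with h | h
        · left
          rintro h0
          rw [h0, abs_zero] at h
          omega
        · right
          rintro h0
          rw [h0, abs_zero] at h
          omega
      have g3 := h2 H hH P.1 P.2 (v P.1 P.2) hne (F P) (by
        intro c hc
        rw [hF] at hc
        have hc' := Finset.mem_filter.1 hc
        exact ⟨(hT c hc'.1).1, hc'.2⟩)
      have hm : (H : ℝ) ≤ max |(P.1 : ℝ)| |(P.2 : ℝ)| := by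
        rcases hP.2 with h | h
        · exact le_max_of_le_left (by exact_mod_cast h.le)
        · exact le_max_of_le_right (by exact_mod_cast h.le)
      have hm1 : (H : ℝ) / max |(P.1 : ℝ)| |(P.2 : ℝ)| ≤ 1 := div_le_one_of_le₀ hm (by positivity)
      have hm0 : 0 ≤ (H : ℝ) / max |(P.1 : ℝ)| |(P.2 : ℝ)| := by positivity
      have g4 : ((H : ℝ) / max |(P.1 : ℝ)| |(P.2 : ℝ)| + 1) ^ 2 ≤ 4 := by nlinarith
      have g5 : (2 * (H : ℝ) + 1) ^ (6 - (2 + 1)) = W := by rw [hW]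
      rw [g5] at g3
      calc ((F P).card : ℝ) ≤ C * ((H : ℝ) / max |(P.1 : ℝ)| |(P.2 : ℝ)| + 1) ^ 2 * W := g3
        _ ≤ C * 4 * W := mul_le_mul_of_nonneg_right (mul_le_mul_of_nonneg_left g4 hC) hW0
        _ = _ := by ring
    have g6 : (B.card : ℝ) ≤ 9 * (R : ℝ) ^ 2 := by
      have g7 : B.card ≤ (2 * R + 1) ^ 2 := by
        rw [← Pool.Agent.H82.TO.card_bp, hB]
        exact Finset.card_filter_le _ _
      have g8 : (B.card : ℝ) ≤ (2 * (R : ℝ) + 1) ^ 2 := by exact_mod_cast g7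
      nlinarith
    calc ((B.biUnion F).card : ℝ) ≤ ∑ P ∈ B, ((F P).card : ℝ) := g1
      _ ≤ ∑ _P ∈ B, 4 * C * W := Finset.sum_le_sum g2
      _ = (B.card : ℝ) * (4 * C * W) := by rw [Finset.sum_const, nsmul_eq_mul]
      _ ≤ 9 * (R : ℝ) ^ 2 * (4 * C * W) := mul_le_mul_of_nonneg_right g6 (by positivity)
      _ = _ := by ring
  have hk : 9 * C1 + 36 * C ≤ (⌈9 * C1 + 36 * C⌉₊ : ℝ) := Nat.le_ceil _
  have p1 : 0 ≤ W * ((H : ℝ) ^ 2 * (1 + Real.log R)) := by positivity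
  have p2 : 0 ≤ W * (R : ℝ) ^ 2 := by positivity
  calc (T.card : ℝ) ≤ 9 * C1 * (W * ((H : ℝ) ^ 2 * (1 + Real.log R))) + 36 * C * (W * (R : ℝ) ^ 2) := by linarith
    _ ≤ (9 * C1 + 36 * C) * (W * ((H : ℝ) ^ 2 * (1 + Real.log R))) + (9 * C1 + 36 * C) * (W * (R : ℝ) ^ 2) := by
        refine add_le_add (mul_le_mul_of_nonneg_right (by linarith) p1) (mul_le_mul_of_nonneg_right (by linarith) p2)
    _ = (9 * C1 + 36 * C) * (W * ((H : ℝ) ^ 2 * (1 + Real.log R) + (R : ℝ) ^ 2)) := by ring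
    _ ≤ _ := mul_le_mul_of_nonneg_right hk (by positivity)

end Pool.Agent.H88.TX
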