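import Pool.Agent.H88.TX.Def
import Pool.Agent.H88.TX.Mo2

/-! # [H88 TX LOC] The location theorem in one form for every stratum: at most `W (1/T + 1/log H) E` members are bad -/

namespace Pool.Agent.H88.TX

open Finset MvPolynomial Pool.Agent.H8.AA Pool.Agent.H88.A2 Pool.Agent.H88.TS Pool.Agent.H82.TO

/-- the order of the number of solvable members -/
noncomputable def Eh (n j H : ℕ) : ℝ := if j = 1 then (H : ℝ) ^ (2 + 1 / ((n - 1 : ℕ) : ℝ)) else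
  if j = 2 then (H : ℝ) ^ 5 * Real.log H else (2 * (H : ℝ) + 1) ^ ((j + 1) * (j + 2) / 2 - 1)

/-- the location theorem, effective and uniform in `G` -/
def LocS (n j κ : ℕ) : Prop :=
    ∀ B : ℕ, 2 ≤ B → ∀ G : MvPolynomial (Fin 2) ℤ, Hyp0 n j G → (∀ m, |G.coeff m| + 1 ≤ (B : ℤ)) → ∀ H T : ℕ, 2 ≤ H → 1 ≤ T →
    (bad j G H ((T : ℝ) * sz n j H) : ℝ) ≤ (B : ℝ) ^ κ * (1 / (T : ℝ) + 1 / Real.log H) * Eh n j H

theorem log_two_le {H : ℕ} (hH : 2 ≤ H) : 1 / 2 ≤ Real.log H := by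
  have h1 := Real.log_two_gt_d9
  have h2 : (2 : ℝ) ≤ (H : ℝ) := by exact_mod_cast hH
  have h3 := Real.log_le_log (by norm_num) h2
  linarith

/-- the numerical part of `cnt2` -/
theorem num2 (κb κm k B H R : ℕ) (hB : 2 ≤ B) (hH : 2 ≤ H) (hR1 : 1 ≤ R) (A S : ℝ) (hA : A = (B : ℝ) ^ κb) (hS1 : 1 ≤ S)
    (hSleH : S ≤ H) (hS2 : S ^ 2 ≤ H) (hRle : (R : ℝ) ≤ A * S) (hk : 486 + 27 * (κm : ℝ) * (5 + 2 * κb) < 2 ^ k) (u v : ℝ)
    (hc1 : u ≤ A * (2 * (H : ℝ) + 1) ^ 5)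
    (hc2 : v ≤ κm * ((2 * (H : ℝ) + 1) ^ 3 * ((H : ℝ) ^ 2 * (1 + Real.log R) + (R : ℝ) ^ 2))) :
    u + v ≤ (B : ℝ) ^ (k + (2 * κb + 1)) * ((H : ℝ) ^ 5 * Real.log H) := by
  have hB2 : (2 : ℝ) ≤ B := by exact_mod_cast hB
  have hH2 : (2 : ℝ) ≤ H := by exact_mod_cast hH
  have hH1 : (1 : ℝ) ≤ H := by linarith
  have hH0 : (0 : ℝ) < H := by linarith
  have hlog := log_two_le hH
  have hRr : (1 : ℝ) ≤ (R : ℝ) := by exact_mod_cast hR1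
  have hA1 : 1 ≤ A := by rw [hA]; exact one_le_pow₀ (by linarith)
  have hlog0 : 0 < Real.log H := by linarith
  have hl1 : (1 : ℝ) ≤ 2 * Real.log H := by linarith
  have hlogB : Real.log B ≤ B := by
    have := Real.log_le_sub_one_of_pos (show (0 : ℝ) < B by linarith)
    linarith
  have hκm : (0 : ℝ) ≤ κm := Nat.cast_nonneg _
  have hκb : (0 : ℝ) ≤ κb := Nat.cast_nonneg _
  obtain ⟨ℓ, hℓ⟩ : ∃ ℓ : ℝ, ℓ = Real.log H := ⟨_, rfl⟩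
  rw [← hℓ] at hlog0 hl1 ⊢
  have hlogR : 1 + Real.log R ≤ (3 + 2 * κb * B) * ℓ := by
    have h1 : Real.log R ≤ Real.log (A * H) :=
      Real.log_le_log (by linarith) (hRle.trans (mul_le_mul_of_nonneg_left hSleH (by linarith)))
    rw [Real.log_mul (by linarith) hH0.ne', hA, Real.log_pow, ← hℓ] at h1
    have h2 : (κb : ℝ) * Real.log B ≤ κb * B := mul_le_mul_of_nonneg_left hlogB hκb
    have h3 : (κb : ℝ) * B ≤ (κb * B) * (2 * ℓ) := le_mul_of_one_le_right (by positivity) hl1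
    have h4 : (3 + 2 * (κb : ℝ) * B) * ℓ = 2 * ℓ + (κb * B) * (2 * ℓ) + ℓ := by ring
    rw [h4]
    linarith
  have hR2 : (R : ℝ) ^ 2 ≤ A ^ 2 * ((H : ℝ) ^ 2 * (2 * ℓ)) := by
    have h1 : (H : ℝ) ≤ (H : ℝ) ^ 2 := by
      rw [sq]
      exact le_mul_of_one_le_right hH0.le hH1
    have h2 : (H : ℝ) ^ 2 ≤ (H : ℝ) ^ 2 * (2 * ℓ) := le_mul_of_one_le_right (by positivity) hl1
    calc (R : ℝ) ^ 2 ≤ (A * S) ^ 2 := pow_le_pow_left₀ (by linarith) hRle 2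
      _ = A ^ 2 * S ^ 2 := mul_pow _ _ _
      _ ≤ A ^ 2 * ((H : ℝ) ^ 2 * (2 * ℓ)) := mul_le_mul_of_nonneg_left (hS2.trans (h1.trans h2)) (by positivity)
  have hK3 : 2 * (H : ℝ) + 1 ≤ 3 * H := by linarith
  have e2 : (2 * (H : ℝ) + 1) ^ 3 ≤ 27 * (H : ℝ) ^ 3 := by
    calc (2 * (H : ℝ) + 1) ^ 3 ≤ (3 * H) ^ 3 := pow_le_pow_left₀ (by positivity) hK3 3
      _ = _ := by ring
  have e3 : (2 * (H : ℝ) + 1) ^ 5 ≤ 243 * (H : ℝ) ^ 5 := by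
    calc (2 * (H : ℝ) + 1) ^ 5 ≤ (3 * H) ^ 5 := pow_le_pow_left₀ (by positivity) hK3 5
      _ = _ := by ring
  obtain ⟨Q, hQ⟩ : ∃ Q : ℝ, Q = (H : ℝ) ^ 5 * ℓ := ⟨_, rfl⟩
  have hQ0 : 0 < Q := by rw [hQ]; positivity
  have hQ5 : (H : ℝ) ^ 5 ≤ 2 * Q := by
    rw [hQ]
    calc (H : ℝ) ^ 5 ≤ (H : ℝ) ^ 5 * (2 * ℓ) := le_mul_of_one_le_right (by positivity) hl1
      _ = _ := by ring
  have f1 : u ≤ A * (486 * Q) := by
    refine hc1.trans (mul_le_mul_of_nonneg_left ?_ (by linarith))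
    linarith
  have f2 : v ≤ 27 * κm * (3 + 2 * κb * B + 2 * A ^ 2) * Q := by
    refine hc2.trans ?_
    have g1 : (H : ℝ) ^ 2 * (1 + Real.log R) + (R : ℝ) ^ 2 ≤ (H : ℝ) ^ 2 * ((3 + 2 * κb * B) * ℓ) + A ^ 2 * ((H : ℝ) ^ 2 * (2 * ℓ)) :=
      add_le_add (mul_le_mul_of_nonneg_left hlogR (by positivity)) hR2
    have g0 : 0 ≤ (H : ℝ) ^ 2 * (1 + Real.log R) + (R : ℝ) ^ 2 := by
      have := Real.log_nonneg hRr
      positivity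
    calc (κm : ℝ) * ((2 * (H : ℝ) + 1) ^ 3 * ((H : ℝ) ^ 2 * (1 + Real.log R) + (R : ℝ) ^ 2))
        ≤ κm * ((27 * (H : ℝ) ^ 3) * ((H : ℝ) ^ 2 * ((3 + 2 * κb * B) * ℓ) + A ^ 2 * ((H : ℝ) ^ 2 * (2 * ℓ)))) :=
          mul_le_mul_of_nonneg_left (mul_le_mul e2 g1 g0 (by positivity)) hκm
      _ = 27 * κm * (3 + 2 * κb * B + 2 * A ^ 2) * ((H : ℝ) ^ 5 * ℓ) := by ring
      _ = _ := by rw [hQ]
  rw [← hQ]
  refine (add_le_add f1 f2).trans ?_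
  have hBA : (B : ℝ) * A ^ 2 = (B : ℝ) ^ (2 * κb + 1) := by rw [hA]; ring
  have h2k : (2 : ℝ) ^ k ≤ (B : ℝ) ^ k := pow_le_pow_left₀ (by norm_num) hB2 k
  have hAA : 1 ≤ A ^ 2 := one_le_pow₀ hA1
  have hA2' : A ≤ A ^ 2 := by
    rw [sq]
    exact le_mul_of_one_le_right (by linarith) hA1
  have hA3 : A ^ 2 ≤ B * A ^ 2 := le_mul_of_one_le_left (by positivity) (by linarith)
  have hA2 : A ≤ B * A ^ 2 := hA2'.trans hA3
  have hA4 : (B : ℝ) ≤ B * A ^ 2 := le_mul_of_one_le_right (by linarith) hAA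
  have hA5 : (1 : ℝ) ≤ B * A ^ 2 := by linarith
  have h6 : 3 + 2 * κb * B + 2 * A ^ 2 ≤ (5 + 2 * (κb : ℝ)) * (B * A ^ 2) := by
    have h7 : 2 * (κb : ℝ) * B ≤ 2 * κb * (B * A ^ 2) := mul_le_mul_of_nonneg_left hA4 (by positivity)
    have h8 : (5 + 2 * (κb : ℝ)) * (B * A ^ 2) = 5 * (B * A ^ 2) + 2 * κb * (B * A ^ 2) := by ring
    rw [h8]
    linarith
  have h8 : 27 * (κm : ℝ) * (3 + 2 * κb * B + 2 * A ^ 2) ≤ 27 * κm * ((5 + 2 * (κb : ℝ)) * (B * A ^ 2)) :=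
    mul_le_mul_of_nonneg_left h6 (by positivity)
  have h5 : A * 486 + 27 * κm * (3 + 2 * κb * B + 2 * A ^ 2) ≤ (486 + 27 * (κm : ℝ) * (5 + 2 * κb)) * (B * A ^ 2) := by
    have h9 : (486 + 27 * (κm : ℝ) * (5 + 2 * κb)) * (B * A ^ 2) = 486 * (B * A ^ 2) + 27 * κm * ((5 + 2 * (κb : ℝ)) * (B * A ^ 2)) := by ring
    rw [h9]
    linarith
  calc A * (486 * Q) + 27 * κm * (3 + 2 * κb * B + 2 * A ^ 2) * Q = (A * 486 + 27 * κm * (3 + 2 * κb * B + 2 * A ^ 2)) * Q := by ring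
    _ ≤ ((486 + 27 * (κm : ℝ) * (5 + 2 * κb)) * (B * A ^ 2)) * Q := mul_le_mul_of_nonneg_right h5 hQ0.le
    _ ≤ ((B : ℝ) ^ k * (B : ℝ) ^ (2 * κb + 1)) * Q := by
      refine mul_le_mul_of_nonneg_right ?_ hQ0.le
      rw [hBA]
      exact mul_le_mul_of_nonneg_right (hk.le.trans h2k) (by positivity)
    _ = (B : ℝ) ^ (k + (2 * κb + 1)) * Q := by rw [pow_add (B : ℝ) k (2 * κb + 1)]

/-- `j = 2`: upper bound for the number of solvable members -/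
theorem cnt2 (n κb κm : ℕ) (hn : 4 ≤ n) (hb : BgxS n κb) (hm : Mo2S κm) : ∃ κ : ℕ, ∀ B : ℕ, 2 ≤ B → ∀ G : MvPolynomial (Fin 2) ℤ,
    Hyp0 n 2 G → (∀ m, |G.coeff m| + 1 ≤ (B : ℤ)) → ∀ H : ℕ, 2 ≤ H →
    (cnt 2 G H : ℝ) ≤ (B : ℝ) ^ κ * ((H : ℝ) ^ 5 * Real.log H) := by
  classical
  obtain ⟨k, hk⟩ := pow_unbounded_of_one_lt (486 + 27 * (κm : ℝ) * (5 + 2 * κb)) (by norm_num : (1 : ℝ) < 2)
  refine ⟨k + (2 * κb + 1), ?_⟩
  intro B hB G hG hGB H hH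
  have hB2 : (2 : ℝ) ≤ B := by exact_mod_cast hB
  have hH2 : (2 : ℝ) ≤ H := by exact_mod_cast hH
  have hH1 : (1 : ℝ) ≤ H := by linarith
  have hH0 : (0 : ℝ) < H := by linarith
  have hlog := log_two_le hH
  have hnr : (0 : ℝ) < ((n - 2 : ℕ) : ℝ) := by exact_mod_cast (by omega : 0 < n - 2)
  obtain ⟨S, hS⟩ : ∃ S : ℝ, S = (H : ℝ) ^ (1 / ((n - 2 : ℕ) : ℝ)) := ⟨_, rfl⟩
  have hS1 : 1 ≤ S := by rw [hS]; exact Real.one_le_rpow hH1 (by positivity)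
  have hS0 : 0 < S := by linarith
  have hSH : S ^ (n - 2) = H := by
    rw [hS, ← Real.rpow_natCast, ← Real.rpow_mul hH0.le, one_div, inv_mul_cancel₀ hnr.ne', Real.rpow_one]
  have hS2 : S ^ 2 ≤ H := by
    rw [← hSH]
    exact pow_le_pow_right₀ hS1 (by omega)
  have hSleH : S ≤ H := by nlinarith
  obtain ⟨A, hA⟩ : ∃ A : ℝ, A = (B : ℝ) ^ κb := ⟨_, rfl⟩
  have hA1 : 1 ≤ A := by rw [hA]; exact one_le_pow₀ (by linarith)
  have hAS1 : 1 ≤ A * S := by nlinarith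
  obtain ⟨R, hR⟩ : ∃ R : ℕ, R = ⌊A * S⌋₊ := ⟨_, rfl⟩
  have hR1 : 1 ≤ R := by rw [hR]; exact Nat.floor_pos.2 hAS1
  have hRle : (R : ℝ) ≤ A * S := by rw [hR]; exact Nat.floor_le (by positivity)
  have hRr : (1 : ℝ) ≤ (R : ℝ) := by exact_mod_cast hR1
  -- the vectors
  obtain ⟨Z, hZ⟩ : ∃ Z : Finset (Ix 2 → ℤ), Z = (box 2 H).filter fun c => ∃ P : Fin 2 → ℤ, eval P (G + pol c) = 0 := ⟨_, rfl⟩
  have hcz : cnt 2 G H = Z.card := ncard_filter 2 H (fun L => ∃ P : Fin 2 → ℤ, eval P (G + L) = 0) Z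
    (fun c => by rw [hZ, Finset.mem_filter])
  obtain ⟨Tb, hTb⟩ : ∃ Tb : Finset (Ix 2 → ℤ), Tb = Z.filter fun c => ∃ P : Fin 2 → ℤ, eval P (G + pol c) = 0 ∧
    A * S ≤ max |(P 0 : ℝ)| |(P 1 : ℝ)| := ⟨_, rfl⟩
  obtain ⟨Ts, hTs⟩ : ∃ Ts : Finset (Ix 2 → ℤ), Ts = Z.filter fun c => ∃ x y : ℤ, |x| ≤ (R : ℤ) ∧ |y| ≤ (R : ℤ) ∧
    ev 2 (co c) x y = - eval ![x, y] G := ⟨_, rfl⟩
  have hbox : ∀ c ∈ Z, ∀ p, |c p| ≤ (H : ℤ) := by
    intro c hc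
    rw [hZ, Finset.mem_filter] at hc
    exact mem_box.1 hc.1
  have hev1 : ∀ (c : Ix 2 → ℤ) (P : Fin 2 → ℤ), eval P (G + pol c) = 0 → ev 2 (co c) (P 0) (P 1) = - eval ![P 0, P 1] G := by
    intro c P h0
    have h3 := ar_ev (Pool.Agent.H88.A2.pol_deg c) P
    rw [ar_pol] at h3
    have hvec : ![P 0, P 1] = P := by
      funext i
      fin_cases i <;> rfl
    rw [h3, hvec]
    rw [map_add] at h0
    linarith
  have hsub : Z ⊆ Tb ∪ Ts := by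
    intro c hc
    rw [Finset.mem_union]
    have hc' := hc
    rw [hZ, Finset.mem_filter] at hc'
    obtain ⟨_, P, hP⟩ := hc'
    by_cases hbig : A * S ≤ max |(P 0 : ℝ)| |(P 1 : ℝ)|
    · left
      rw [hTb, Finset.mem_filter]
      exact ⟨hc, P, hP, hbig⟩
    · right
      push Not at hbig
      rw [hTs, Finset.mem_filter]
      have h2 := max_lt_iff.1 hbig
      have key : ∀ z : ℤ, |(z : ℝ)| < A * S → |z| ≤ (R : ℤ) := by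
        intro z hz
        have h3 : ((z.natAbs : ℕ) : ℝ) ≤ A * S := by
          rw [Nat.cast_natAbs, Int.cast_abs]
          exact hz.le
        have h4 := Nat.le_floor h3
        rw [← hR] at h4
        rw [Int.abs_eq_natAbs]
        exact_mod_cast h4
      exact ⟨hc, P 0, P 1, key _ h2.1, key _ h2.2, hev1 c P hP⟩
  have hc1 := hb B hB G hG hGB H S (by omega) hS1 hSH Tb (by
    intro c hc
    rw [hTb, Finset.mem_filter] at hc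
    refine ⟨hbox c hc.1, ?_⟩
    rw [← hA]
    exact hc.2)
  have hc2 := hm H R (by omega) hR1 (fun x y => - eval ![x, y] G) Ts (by
    intro c hc
    rw [hTs, Finset.mem_filter] at hc
    exact ⟨hbox c hc.1, hc.2⟩)
  rw [← hA] at hc1
  have hK3 : 2 * (H : ℝ) + 1 ≤ 3 * H := by linarith
  have e2 : (2 * (H : ℝ) + 1) ^ 3 ≤ 27 * (H : ℝ) ^ 3 := by
    calc (2 * (H : ℝ) + 1) ^ 3 ≤ (3 * H) ^ 3 := pow_le_pow_left₀ (by positivity) hK3 3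
      _ = _ := by ring
  have e3 : (2 * (H : ℝ) + 1) ^ 5 ≤ 243 * (H : ℝ) ^ 5 := by
    calc (2 * (H : ℝ) + 1) ^ 5 ≤ (3 * H) ^ 5 := pow_le_pow_left₀ (by positivity) hK3 5
      _ = _ := by ring
  have hlog0 : 0 < Real.log H := by linarith
  have hl1 : (1 : ℝ) ≤ 2 * Real.log H := by linarith
  -- log R
  have hfin := num2 κb κm k B H R hB hH hR1 A S hA hS1 hSleH hS2 hRle hk (Tb.card : ℝ) (Ts.card : ℝ) hc1 hc2
  have hle : (Z.card : ℝ) ≤ Tb.card + Ts.card := by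
    exact_mod_cast (Finset.card_le_card hsub).trans (Finset.card_union_le _ _)
  rw [hcz]
  exact hle.trans hfin

theorem loc2 (n κb κm κu : ℕ) (hn : 4 ≤ n) (hb : BgxS n κb) (hm : Mo2S κm) (hu : UqxS n κu) : ∃ κ : ℕ, LocS n 2 κ := by
  obtain ⟨κc, hc⟩ := cnt2 n κb κm hn hb hm
  refine ⟨κu + κc, ?_⟩
  intro B hB G hG hGB H T hH hT
  have hB2 : (2 : ℝ) ≤ B := by exact_mod_cast hB
  have hB1 : (1 : ℝ) ≤ B := by linarith
  have hH2 : (2 : ℝ) ≤ H := by exact_mod_cast hH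
  have hH0 : (0 : ℝ) < H := by linarith
  have hlog := log_two_le hH
  have hlog0 : 0 < Real.log H := by linarith
  have hT1 : (1 : ℝ) ≤ T := by exact_mod_cast hT
  have hT0 : (0 : ℝ) < T := by linarith
  have hE : Eh n 2 H = (H : ℝ) ^ 5 * Real.log H := by
    unfold Eh
    rw [if_neg (by norm_num), if_pos rfl]
  have hsz : sz n 2 H = (H : ℝ) ^ (1 / ((n - 2 : ℕ) : ℝ)) := by
    unfold sz
    rw [if_neg (by norm_num), if_pos rfl]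
  have hS0 : 0 ≤ (H : ℝ) ^ (1 / ((n - 2 : ℕ) : ℝ)) := by positivity
  rw [hE, hsz]
  obtain ⟨Q, hQ⟩ : ∃ Q : ℝ, Q = (H : ℝ) ^ 5 * Real.log H := ⟨_, rfl⟩
  have hQ0 : 0 < Q := by rw [hQ]; positivity
  have hQl : (H : ℝ) ^ 5 = 1 / Real.log H * Q := by
    rw [hQ]
    field_simp
  have hil : 0 < 1 / Real.log H := by positivity
  have hiT : 0 < 1 / (T : ℝ) := by positivity
  rcases le_total ((B : ℝ) ^ κu) (T : ℝ) with hle | hle
  · have h1 : (bad 2 G H ((T : ℝ) * (H : ℝ) ^ (1 / ((n - 2 : ℕ) : ℝ))) : ℝ) ≤ (bad 2 G H ((B : ℝ) ^ κu * (H : ℝ) ^ (1 / ((n - 2 : ℕ) : ℝ))) : ℝ) := by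
      exact_mod_cast bad_mono 2 G H (mul_le_mul_of_nonneg_right hle hS0)
    have h2 := hu B hB G hG hGB H (by omega)
    refine h1.trans (h2.trans ?_)
    rw [← hQ, hQl]
    calc (B : ℝ) ^ κu * (1 / Real.log H * Q) ≤ (B : ℝ) ^ (κu + κc) * ((1 / (T : ℝ) + 1 / Real.log H) * Q) := by
          refine mul_le_mul (pow_le_pow_right₀ hB1 (by omega)) ?_ (by positivity) (by positivity)
          exact mul_le_mul_of_nonneg_right (by linarith) hQ0.le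
      _ = _ := by ring
  · have h1 : (bad 2 G H ((T : ℝ) * (H : ℝ) ^ (1 / ((n - 2 : ℕ) : ℝ))) : ℝ) ≤ (cnt 2 G H : ℝ) := by
      exact_mod_cast bad_le_cnt 2 G H _
    refine h1.trans ((hc B hB G hG hGB H hH).trans ?_)
    rw [← hQ]
    have h3 : 1 ≤ (B : ℝ) ^ κu * (1 / (T : ℝ)) := by
      rw [mul_one_div, le_div_iff₀ hT0, one_mul]
      exact hle
    calc (B : ℝ) ^ κc * Q = (B : ℝ) ^ κc * Q * 1 := (mul_one _).symm
      _ ≤ (B : ℝ) ^ κc * Q * ((B : ℝ) ^ κu * (1 / (T : ℝ))) := mul_le_mul_of_nonneg_left h3 (by positivity)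
      _ = (B : ℝ) ^ (κu + κc) * (1 / (T : ℝ)) * Q := by rw [pow_add]; ring
      _ ≤ (B : ℝ) ^ (κu + κc) * (1 / (T : ℝ) + 1 / Real.log H) * Q := by
        refine mul_le_mul_of_nonneg_right (mul_le_mul_of_nonneg_left (by linarith) (by positivity)) hQ0.le

end Pool.Agent.H88.TX
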